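import Pool.Agent.Helper49.Petrie.Base

/-!
# Row A: arithmetic of families of integers
-/

namespace Pool.Agent.Helper49.Petrie.A

open Finset Pool.Agent.Helper49.Petrie

open ArithmeticFunction in
theorem exists_J : ∃ J : ℕ → ℤ, (∀ m, 0 < m → 0 < J m) ∧
    ∀ z : ℕ, 0 < z → ∑ m ∈ z.divisors, J m = (z : ℤ) ^ 2 := by
  let φ : ArithmeticFunction ℕ := ⟨Nat.totient, by simp⟩
  let f : ArithmeticFunction ℕ := ⟨fun e => e * Nat.totient e, by simp⟩
  have hφ : φ * (zeta : ArithmeticFunction ℕ) = ArithmeticFunction.id := by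
    ext z
    rw [mul_zeta_apply]
    change ∑ i ∈ z.divisors, Nat.totient i = z
    exact Nat.sum_totient z
  refine ⟨fun m => ((f * φ) m : ℕ), ?_, ?_⟩
  · intro m hm
    have : 0 < (f * φ) m := by
      rw [mul_apply]
      apply sum_pos
      · intro x hx
        have h1 := Nat.mem_divisorsAntidiagonal.1 hx
        have h2 : 0 < x.1 := Nat.pos_of_ne_zero fun h => by
          rw [h] at h1; simp at h1; omega
        have h3 : 0 < x.2 := Nat.pos_of_ne_zero fun h => by
          rw [h] at h1; simp at h1; omega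
        exact Nat.mul_pos (Nat.mul_pos h2 (Nat.totient_pos.2 h2)) (Nat.totient_pos.2 h3)
      · exact ⟨(1, m), Nat.mem_divisorsAntidiagonal.2 ⟨one_mul m, hm.ne'⟩⟩
    exact Int.natCast_pos.2 this
  · intro z _
    have h1 : (f * φ) * (zeta : ArithmeticFunction ℕ) = f * ArithmeticFunction.id := by
      rw [mul_assoc, hφ]
    have h2 : ∑ m ∈ z.divisors, (f * φ) m = z ^ 2 := by
      rw [← mul_zeta_apply, h1, mul_apply]
      have h3 : ∀ x ∈ z.divisorsAntidiagonal, f x.1 * (ArithmeticFunction.id : ArithmeticFunction ℕ) x.2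
          = z * Nat.totient x.1 := by
        intro x hx
        have h4 := (Nat.mem_divisorsAntidiagonal.1 hx).1
        change x.1 * Nat.totient x.1 * x.2 = z * Nat.totient x.1
        rw [← h4]
        ring
      rw [sum_congr rfl h3, ← mul_sum]
      have h4 : ∑ x ∈ z.divisorsAntidiagonal, Nat.totient x.1 = z := by
        rw [Nat.sum_divisorsAntidiagonal (f := fun a _ => Nat.totient a)]
        exact Nat.sum_totient z
      rw [h4]
      ring
    have h5 := congrArg (fun q : ℕ => (q : ℤ)) h2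
    simp only [Nat.cast_sum, Nat.cast_pow] at h5
    exact h5

section
variable {ι κ : Type} [Fintype ι] [Fintype κ]

/-- squares through divisor counts -/
theorem sum_sq (J : ℕ → ℤ) (hJ : ∀ z : ℕ, 0 < z → ∑ m ∈ z.divisors, J m = (z : ℤ) ^ 2)
    (s : ι → ℤ) (R : ℕ) (hR : ∀ i, (s i).natAbs ≤ R) :
    ∑ i, s i ^ 2 = ∑ m ∈ Icc 1 R, J m * ((#{i | (m : ℤ) ∣ s i} : ℤ) - #{i | s i = 0}) := by
  have h1 : ∀ i, s i ^ 2 = ∑ m ∈ Icc 1 R, J m *
      ((if (m : ℤ) ∣ s i then 1 else 0) - if s i = 0 then 1 else 0) := by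
    intro i
    by_cases h0 : s i = 0
    · simp [h0]
    · have h2 : 0 < (s i).natAbs := Int.natAbs_pos.2 h0
      have h3 := hJ _ h2
      rw [Int.natCast_natAbs, sq_abs] at h3
      rw [← h3]
      simp only [h0, if_false, sub_zero, mul_ite, mul_one, mul_zero]
      rw [← sum_filter]
      apply sum_congr _ fun _ _ => rfl
      ext m
      simp only [Nat.mem_divisors, mem_filter, mem_Icc, Int.natCast_dvd]
      constructor
      · rintro ⟨h4, _⟩
        exact ⟨⟨Nat.pos_of_dvd_of_pos h4 h2, (Nat.le_of_dvd h2 h4).trans (hR i)⟩, h4⟩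
      · rintro ⟨_, h4⟩
        exact ⟨h4, h2.ne'⟩
  rw [sum_congr rfl fun i _ => h1 i, sum_comm]
  apply sum_congr rfl
  intro m _
  rw [← mul_sum, sum_sub_distrib, card_filter, card_filter]
  push_cast
  rfl

end

theorem exists_bound {ι κ : Type} [Fintype ι] [Fintype κ] (s : ι → ℤ) (t : κ → ℤ) :
    ∃ R : ℕ, (∀ i, (s i).natAbs ≤ R) ∧ ∀ j, (t j).natAbs ≤ R := by
  refine ⟨∑ i, (s i).natAbs + ∑ j, (t j).natAbs, fun i => ?_, fun j => ?_⟩
  · have := single_le_sum (f := fun i => (s i).natAbs) (fun i _ => Nat.zero_le _) (mem_univ i)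
    omega
  · have := single_le_sum (f := fun j => (t j).natAbs) (fun i _ => Nat.zero_le _) (mem_univ j)
    omega

theorem Dom.sq_le {ι κ : Type} [Fintype ι] [Fintype κ] {s : ι → ℤ} {t : κ → ℤ}
    (h : Dom s t) : ∑ j, t j ^ 2 ≤ ∑ i, s i ^ 2 := by
  obtain ⟨J, hJ0, hJ⟩ := exists_J
  obtain ⟨R, h1, h2⟩ := exists_bound s t
  rw [sum_sq J hJ s R h1, sum_sq J hJ t R h2]
  apply sum_le_sum
  intro m hm
  have hm' := (mem_Icc.1 hm).1
  have h3 := h.le m hm'
  apply mul_le_mul_of_nonneg_left _ (hJ0 m hm').le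
  rw [h.zero]
  have : ((#{j | (m : ℤ) ∣ t j} : ℕ) : ℤ) ≤ (#{i | (m : ℤ) ∣ s i} : ℕ) := by exact_mod_cast h3
  linarith

theorem Dom.card_eq {ι κ : Type} [Fintype ι] [Fintype κ] {s : ι → ℤ} {t : κ → ℤ}
    (h : Dom s t) (he : ∑ j, t j ^ 2 = ∑ i, s i ^ 2) (m : ℕ) (hm : 0 < m) :
    #{j | (m : ℤ) ∣ t j} = #{i | (m : ℤ) ∣ s i} := by
  obtain ⟨J, hJ0, hJ⟩ := exists_J
  obtain ⟨R', h1', h2'⟩ := exists_bound s t
  obtain ⟨R, hR, h1, h2⟩ : ∃ R, m ≤ R ∧ (∀ i, (s i).natAbs ≤ R) ∧ ∀ j, (t j).natAbs ≤ R :=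
    ⟨R' + m, by omega, fun i => (h1' i).trans (by omega), fun j => (h2' j).trans (by omega)⟩
  rw [sum_sq J hJ s R h1, sum_sq J hJ t R h2] at he
  have h3 : ∀ q ∈ Icc 1 R, J q * ((#{j | (q : ℤ) ∣ t j} : ℤ) - #{j | t j = 0}) ≤
      J q * ((#{i | (q : ℤ) ∣ s i} : ℤ) - #{i | s i = 0}) := by
    intro q hq
    have hm' := (mem_Icc.1 hq).1
    have h3 := h.le q hm'
    apply mul_le_mul_of_nonneg_left _ (hJ0 q hm').le
    rw [h.zero]
    have : ((#{j | (q : ℤ) ∣ t j} : ℕ) : ℤ) ≤ (#{i | (q : ℤ) ∣ s i} : ℕ) := by exact_mod_cast h3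
    linarith
  have h4 := (sum_eq_sum_iff_of_le h3).1 he m (mem_Icc.2 ⟨hm, hR⟩)
  have h5 := mul_left_cancel₀ (hJ0 m hm).ne' h4
  rw [h.zero] at h5
  have h6 : ((#{j | (m : ℤ) ∣ t j} : ℕ) : ℤ) = (#{i | (m : ℤ) ∣ s i} : ℕ) := by linarith
  exact_mod_cast h6

/-- point counts -/
theorem card_natAbs_eq {ι κ : Type} [Fintype ι] [Fintype κ] {s : ι → ℤ} {t : κ → ℤ}
    (h0 : #{j | t j = 0} = #{i | s i = 0})
    (h : ∀ m : ℕ, 0 < m → #{j | (m : ℤ) ∣ t j} = #{i | (m : ℤ) ∣ s i}) (d : ℕ) :
    #{j | (t j).natAbs = d} = #{i | (s i).natAbs = d} := by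
  rcases Nat.eq_zero_or_pos d with rfl | hd
  · simpa using h0
  obtain ⟨R, h1, h2⟩ := exists_bound s t
  -- induct downwards
  have key : ∀ c d : ℕ, 0 < d → R < d + c →
      #{j | (t j).natAbs = d} = #{i | (s i).natAbs = d} := by
    intro c
    induction c with
    | zero =>
      intro d _ hdR
      have e1 : (univ.filter fun j => (t j).natAbs = d) = ∅ := by
        apply filter_eq_empty_iff.2
        intro j _ hj
        have := h2 j
        omega
      have e2 : (univ.filter fun i => (s i).natAbs = d) = ∅ := by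
        apply filter_eq_empty_iff.2
        intro j _ hj
        have := h1 j
        omega
      rw [e1, e2]
      rfl
    | succ c ih =>
      intro d hd hdR
      -- divisible by d: zero, or |.| = e * d with 1 ≤ e ≤ R
      have count : ∀ {α : Type} [Fintype α] (u : α → ℤ) (_ : ∀ i, (u i).natAbs ≤ R),
          #{i | (d : ℤ) ∣ u i} = ∑ e ∈ range (R + 1), #{i | (u i).natAbs = e * d} := by
        intro α _ u hu
        classical
        rw [← card_biUnion]
        · congr 1
          ext i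
          simp only [mem_filter, mem_univ, true_and, mem_biUnion, mem_range]
          rw [Int.natCast_dvd]
          constructor
          · rintro ⟨e, he⟩
            refine ⟨e, ?_, by rw [he, mul_comm]⟩
            have := hu i
            rw [he] at this
            have : e ≤ d * e := Nat.le_mul_of_pos_left e hd
            omega
          · rintro ⟨e, _, he⟩
            exact ⟨e, by rw [he, mul_comm]⟩
        · intro a _ b _ hab
          rw [Function.onFun, disjoint_left]
          intro i hi hi'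
          rw [mem_filter] at hi hi'
          apply hab
          exact Nat.eq_of_mul_eq_mul_right hd (hi.2.symm.trans hi'.2)
      have h3 := h d hd
      rw [count t h2, count s h1] at h3
      have h1R : 1 ∈ range (R + 1) ∨ R = 0 := by
        rcases Nat.eq_zero_or_pos R with h4 | h4
        · exact Or.inr h4
        · exact Or.inl (mem_range.2 (by omega))
      rcases h1R with h1R | hR0
      · rw [← add_sum_erase _ _ h1R, ← add_sum_erase _ _ h1R] at h3
        have h4 : ∑ e ∈ (range (R + 1)).erase 1, #{j | (t j).natAbs = e * d} =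
            ∑ e ∈ (range (R + 1)).erase 1, #{i | (s i).natAbs = e * d} := by
          apply sum_congr rfl
          intro e he
          rw [mem_erase, mem_range] at he
          rcases Nat.eq_zero_or_pos e with rfl | he0
          · simpa using h0
          · apply ih (e * d) (Nat.mul_pos he0 hd)
            have : 2 * d ≤ e * d := Nat.mul_le_mul_right d (by omega)
            omega
        rw [h4] at h3
        have h5 := Nat.add_right_cancel h3
        simpa using h5
      · have e1 : (univ.filter fun j => (t j).natAbs = d) = ∅ := by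
          apply filter_eq_empty_iff.2
          intro j _ hj
          have := h2 j
          omega
        have e2 : (univ.filter fun i => (s i).natAbs = d) = ∅ := by
          apply filter_eq_empty_iff.2
          intro j _ hj
          have := h1 j
          omega
        rw [e1, e2]
        rfl
  exact key (R + 1) d hd (by omega)

theorem sum_eq_of_card_eq {ι κ : Type} [Fintype ι] [Fintype κ] {s : ι → ℤ} {t : κ → ℤ}
    (h0 : #{j | t j = 0} = #{i | s i = 0})
    (h : ∀ m : ℕ, 0 < m → #{j | (m : ℤ) ∣ t j} = #{i | (m : ℤ) ∣ s i}) (f : ℕ → ℤ) :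
    ∑ j, f (t j).natAbs = ∑ i, f (s i).natAbs := by
  obtain ⟨R, h1, h2⟩ := exists_bound s t
  have key : ∀ {α : Type} [Fintype α] (u : α → ℤ) (_ : ∀ i, (u i).natAbs ≤ R),
      ∑ i, f (u i).natAbs = ∑ d ∈ range (R + 1), (#{i | (u i).natAbs = d} : ℤ) * f d := by
    intro α _ u hu
    rw [← sum_fiberwise_of_maps_to (s := univ) (t := range (R + 1)) (g := fun i => (u i).natAbs)
      (fun j _ => mem_range.2 (by have := hu j; omega))]
    apply sum_congr rfl
    intro d _
    rw [sum_congr rfl (fun j hj => by rw [(mem_filter.1 hj).2] : ∀ j ∈ univ.filter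
      (fun j => (u j).natAbs = d), f (u j).natAbs = f d)]
    simp
  rw [key t h2, key s h1]
  exact sum_congr rfl fun d _ => by rw [card_natAbs_eq h0 h d]

end Pool.Agent.Helper49.Petrie.A
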