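import Pool.Agent.Helper49.Petrie.RankTwo

/-!
# Row H: assembly
-/

namespace Pool.Agent.Helper49.Petrie.H

open Finset Pool.Agent.Helper49.Petrie Pool.Agent.Helper49.Petrie.E

theorem dot_comb {k : ℕ} (x e f : Fin k → ℤ) (v : Fin 2 → ℤ) :
    (![x ⬝ᵥ e, x ⬝ᵥ f] : Fin 2 → ℤ) ⬝ᵥ v = x ⬝ᵥ (v 0 • e + v 1 • f) := by
  rw [dot2, dotProduct_add, dotProduct_smul, dotProduct_smul]
  simp only [Matrix.cons_val_zero, Matrix.cons_val_one, smul_eq_mul]
  ring

/-- restriction to a rank two torus -/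
def pull {k n : ℕ} (X : TorusAction k n) (e f : Fin k → ℤ)
    (hind : ∀ s t : ℤ, s • e + t • f = 0 → s = 0 ∧ t = 0) : TorusAction 2 n where
  p := X.p
  r := X.r
  p_eq := X.p_eq
  a := fun i => ![X.a i ⬝ᵥ e, X.a i ⬝ᵥ f]
  w := fun i j => ![X.w i j ⬝ᵥ e, X.w i j ⬝ᵥ f]
  circle := by
    intro v
    have h := X.circle (v 0 • e + v 1 • f)
    simpa only [dot_comb] using h
  β := ![X.β ⬝ᵥ e, X.β ⬝ᵥ f]
  γ := !![e ⬝ᵥ X.γ.mulVec e, e ⬝ᵥ X.γ.mulVec f; f ⬝ᵥ X.γ.mulVec e, f ⬝ᵥ X.γ.mulVec f]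
  pont := by
    intro i v
    simp only [dot_comb]
    rw [X.pont]
    congr 1
    rw [Matrix.mulVec_add, Matrix.mulVec_smul, Matrix.mulVec_smul, add_dotProduct,
      dotProduct_add, dotProduct_add]
    simp only [smul_dotProduct, dotProduct_smul, smul_eq_mul]
    simp [dotProduct, Matrix.mulVec, Fin.sum_univ_two]
    ring
  eff := by
    intro v hv
    have h1 := X.eff (v 0 • e + v 1 • f) (fun i l => by
      have := hv i l
      simpa only [dot_comb] using this)
    obtain ⟨h2, h3⟩ := hind _ _ h1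
    ext j
    fin_cases j
    · exact h2
    · exact h3

theorem Dsq_pull {k n : ℕ} (X : TorusAction k n) (e f : Fin k → ℤ)
    (hind : ∀ s t : ℤ, s • e + t • f = 0 → s = 0 ∧ t = 0) (i : Fin (n + 1)) (v : Fin 2 → ℤ) :
    Dsq (pull X e f hind) i v = Dsq X i (v 0 • e + v 1 • f) := by
  unfold Dsq pull
  simp only [sub_dotProduct, dot_comb]

theorem std_of_circle {k n : ℕ} (X : TorusAction k n) (v : Fin k → ℤ) (hv : v ≠ 0)
    (h : ∀ i, Dsq X i v = 0) (s : ℕ) (hs : 2 * s ≤ n) : X.p s = (n + 1).choose s := by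
  have hsum : ∀ i, ∑ j, |X.w i j ⬝ᵥ v| = ∑ l, |X.a l ⬝ᵥ v - X.a i ⬝ᵥ v| := by
    intro i
    have h1 := sum_eq_of_Dsq_eq_zero X i v (h i) (fun d => (d : ℤ))
    simp only [Int.natCast_natAbs, sub_dotProduct] at h1
    rw [h1, filter_ne', ← sum_erase_add univ _ (mem_univ i)]
    simp
  have hd : ∀ c : ℤ, Even (c + (n + 1)) → |c| < n + 1 → diracIndex n X.r c = 0 := by
    intro c hc hcn
    apply (X.circle v).dirac c hc
    intro i l
    rw [hsum i, hsum l, ← sum_add_distrib]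
    have h1 : ((n : ℤ) + 1) * |X.a i ⬝ᵥ v - X.a l ⬝ᵥ v| ≤
        ∑ m, (|X.a m ⬝ᵥ v - X.a i ⬝ᵥ v| + |X.a m ⬝ᵥ v - X.a l ⬝ᵥ v|) := by
      have h2 : ∀ m, |X.a i ⬝ᵥ v - X.a l ⬝ᵥ v| ≤
          |X.a m ⬝ᵥ v - X.a i ⬝ᵥ v| + |X.a m ⬝ᵥ v - X.a l ⬝ᵥ v| := by
        intro m
        have h3 : X.a i ⬝ᵥ v - X.a l ⬝ᵥ v =
          -(X.a m ⬝ᵥ v - X.a i ⬝ᵥ v) + (X.a m ⬝ᵥ v - X.a l ⬝ᵥ v) := by ring
        rw [h3]
        refine (abs_add_le _ _).trans ?_
        rw [abs_neg]
      have h3 := sum_le_sum (s := (univ : Finset (Fin (n + 1)))) fun m _ => h2 m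
      rw [sum_const, card_univ, Fintype.card_fin, nsmul_eq_mul] at h3
      push_cast at h3
      exact h3
    rcases eq_or_ne (X.a i ⬝ᵥ v) (X.a l ⬝ᵥ v) with h2 | h2
    · simp only [h2, sub_self, abs_zero, mul_zero]
      have h3 : ∃ m, X.a m ⬝ᵥ v ≠ X.a l ⬝ᵥ v := by
        by_contra hcon
        push Not at hcon
        exact hv (X.eff v fun i' l' => by rw [hcon i', hcon l'])
      obtain ⟨m, hm⟩ := h3
      apply sum_pos'
      · intro m' _
        positivity
      · refine ⟨m, mem_univ m, ?_⟩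
        have : 0 < |X.a m ⬝ᵥ v - X.a l ⬝ᵥ v| := abs_pos.2 (sub_ne_zero.2 hm)
        linarith
    · refine lt_of_lt_of_le ?_ h1
      exact mul_lt_mul_of_pos_right hcn (abs_pos.2 (sub_ne_zero.2 h2))
  have h1 := dirac_std n X.r hd s hs
  have h2 := X.p_eq s hs
  rw [h1] at h2
  exact_mod_cast h2

/-- coercion of integral vectors -/
def cv {k : ℕ} (x : Fin k → ℤ) : Fin k → ℚ := fun j => (x j : ℚ)

theorem cv_dot {k : ℕ} (x y : Fin k → ℤ) : cv x ⬝ᵥ cv y = ((x ⬝ᵥ y : ℤ) : ℚ) := by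
  simp [cv, dotProduct]

theorem cv_inj {k : ℕ} {x y : Fin k → ℤ} (h : cv x = cv y) : x = y := by
  ext j
  have := congrFun h j
  simpa [cv] using this

theorem exists_int {k : ℕ} (v : Fin k → ℚ) : ∃ (N : ℕ) (x : Fin k → ℤ), 0 < N ∧
    (N : ℚ) • v = cv x := by
  refine ⟨∏ j, (v j).den, fun j => (v j).num * ∏ l ∈ univ.erase j, ((v l).den : ℤ), ?_, ?_⟩
  · exact prod_pos fun j _ => (v j).den_pos
  · ext j
    simp only [cv, Pi.smul_apply, smul_eq_mul]
    rw [← mul_prod_erase univ _ (mem_univ j)]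
    push_cast
    have h1 : ((v j).den : ℚ) * v j = (v j).num := by
      rw [mul_comm]
      exact Rat.mul_den_eq_num (v j)
    calc ((v j).den : ℚ) * (∏ l ∈ univ.erase j, ((v l).den : ℚ)) * v j
        = (((v j).den : ℚ) * v j) * ∏ l ∈ univ.erase j, ((v l).den : ℚ) := by ring
      _ = _ := by rw [h1]

/-- special directions at a point `p` -/
def SS {k n : ℕ} (X : TorusAction k n) (p : Fin k → ℚ) : Set (Fin k → ℚ) :=
  {u | ∃ i u', cv (X.a i) = p ∧ Special X i u' ∧ u = cv u'}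

/-- the kernel at a point `p` -/
def KK {k n : ℕ} (X : TorusAction k n) (p : Fin k → ℚ) : Submodule ℚ (Fin k → ℚ) where
  carrier := {v | ∀ u ∈ SS X p, u ⬝ᵥ v = 0}
  add_mem' := by
    intro a b ha hb u hu
    rw [dotProduct_add, ha u hu, hb u hu, add_zero]
  zero_mem' := by
    intro u _
    exact dotProduct_zero u
  smul_mem' := by
    intro c a ha u hu
    rw [dotProduct_smul, ha u hu, smul_zero]

theorem mem_KK {k n : ℕ} (X : TorusAction k n) (i : Fin (n + 1)) (v : Fin k → ℤ) :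
    cv v ∈ KK X (cv (X.a i)) ↔ Dsq X i v = 0 := by
  constructor
  · intro h
    rw [Dsq_eq_zero_iff]
    intro u hu
    have h1 := h (cv u) ⟨i, u, rfl, hu, rfl⟩
    rw [cv_dot] at h1
    exact_mod_cast h1
  · rintro h _ ⟨i', u, h1, hu, rfl⟩
    rw [cv_dot]
    have h2 : Dsq X i' v = 0 := by
      rw [← h, Dsq_eq, Dsq_eq, cv_inj h1]
    exact_mod_cast (Dsq_eq_zero_iff X i' v).1 h2 u hu

theorem mem_KK_smul {k n : ℕ} (X : TorusAction k n) (p v : Fin k → ℚ) {c : ℚ} (hc : c ≠ 0) :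
    c • v ∈ KK X p ↔ v ∈ KK X p := by
  constructor
  · intro h
    have := (KK X p).smul_mem c⁻¹ h
    rwa [smul_smul, inv_mul_cancel₀ hc, one_smul] at this
  · intro h
    exact (KK X p).smul_mem c h

theorem main {k n : ℕ} (hk : 2 ≤ k) (X : TorusAction k n)
    (h1 : (univ.image X.a).card < (k + 3).choose 3)
    (h2 : (univ.image X.a).card < 2 * (k + 2).choose 3) (s : ℕ) (hs : 2 * s ≤ n) :
    X.p s = (n + 1).choose s := by
  by_contra hns
  have hN : ∀ v, v ≠ 0 → ¬ ∀ i, Dsq X i v = 0 := fun v hv h =>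
    hns (std_of_circle X v hv h s hs)
  set P : Finset (Fin k → ℚ) := univ.image fun i => cv (X.a i) with hP
  have hPi : ∀ p ∈ P, ∃ i, cv (X.a i) = p := by
    intro p hp
    obtain ⟨i, _, hi⟩ := mem_image.1 hp
    exact ⟨i, hi⟩
  have hcard : P.card ≤ (univ.image X.a).card := by
    have : P = (univ.image X.a).image cv := by
      rw [hP, image_image]
      rfl
    rw [this]
    exact card_image_le
  have hb := config_bound hk P ⟨cv (X.a 0), mem_image_of_mem _ (mem_univ 0)⟩ (KK X) (SS X)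
    ?_ ?_ ?_ ?_ ?_
  · omega
  · -- the kernels have dimension at most one
    intro p hp
    obtain ⟨i, rfl⟩ := hPi p hp
    by_contra hcon
    push Not at hcon
    have hnt : Nontrivial (KK X (cv (X.a i))) :=
      Module.nontrivial_of_finrank_pos (R := ℚ) (by omega)
    obtain ⟨x, hx⟩ := exists_ne (0 : KK X (cv (X.a i)))
    obtain ⟨y, hxy⟩ := exists_linearIndependent_pair_of_one_lt_finrank hcon hx
    obtain ⟨N, e, hN0, he⟩ := exists_int (x : Fin k → ℚ)
    obtain ⟨M, f, hM0, hf⟩ := exists_int (y : Fin k → ℚ)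
    have hNq : (N : ℚ) ≠ 0 := by exact_mod_cast hN0.ne'
    have hMq : (M : ℚ) ≠ 0 := by exact_mod_cast hM0.ne'
    have hcomb : ∀ s t : ℤ, cv (s • e + t • f) =
        ((((s : ℚ) * N) • x + ((t : ℚ) * M) • y : KK X (cv (X.a i))) : Fin k → ℚ) := by
      intro s t
      have e1 : cv (s • e + t • f) = (s : ℚ) • cv e + (t : ℚ) • cv f := by
        ext j
        simp [cv]
      rw [e1, ← he, ← hf]
      simp [smul_smul]
    have hind : ∀ s t : ℤ, s • e + t • f = 0 → s = 0 ∧ t = 0 := by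
      intro s t hst
      have h3 := hcomb s t
      rw [hst] at h3
      have h6 : cv (0 : Fin k → ℤ) = 0 := by
        ext j
        simp [cv]
      rw [h6] at h3
      have h4 : ((s : ℚ) * N) • x + ((t : ℚ) * M) • y = 0 := by
        apply Subtype.ext
        exact h3.symm
      obtain ⟨h7, h8⟩ := LinearIndependent.pair_iff.1 hxy _ _ h4
      constructor
      · have := (mul_eq_zero.1 h7).resolve_right hNq
        exact_mod_cast this
      · have := (mul_eq_zero.1 h8).resolve_right hMq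
        exact_mod_cast this
    have hzero : ∀ v, Dsq (pull X e f hind) i v = 0 := by
      intro v
      rw [Dsq_pull, ← mem_KK, hcomb]
      exact Subtype.property _
    have h5 := torus_two' (pull X e f hind) i hzero
    have he0 : e ≠ 0 := by
      intro h6
      have := hind 1 0 (by rw [h6]; simp)
      omega
    apply hN e he0
    intro l
    have h6 := h5 l ![1, 0]
    rw [Dsq_pull] at h6
    simpa using h6
  · intro p _ v
    rfl
  · intro p _ u hu
    obtain ⟨i, u', rfl, hsp, rfl⟩ := hu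
    obtain ⟨z₁, z₂, z₃, n1, n2, n3, n12, n13, n23, ⟨l₁, e₁⟩, ⟨l₂, e₂⟩, ⟨l₃, e₃⟩⟩ :=
      special_rich X i u' hsp
    refine ⟨{0, (z₁ : ℚ), (z₂ : ℚ), (z₃ : ℚ)}, ?_, ?_⟩
    · rw [card_insert_of_notMem, card_insert_of_notMem, card_insert_of_notMem, card_singleton]
      · simpa using n23
      · simp [n12, n13]
      · simp only [mem_insert, mem_singleton, not_or]
        refine ⟨?_, ?_, ?_⟩
        · exact_mod_cast n1.symm
        · exact_mod_cast n2.symm
        · exact_mod_cast n3.symm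
    · intro t ht
      have key : ∀ (z : ℤ) (l : Fin (n + 1)), X.a l = X.a i + z • u' →
          cv (X.a i) + (z : ℚ) • cv u' ∈ P := by
        intro z l hl
        refine mem_image.2 ⟨l, mem_univ l, ?_⟩
        rw [hl]
        ext j
        simp [cv]
      simp only [mem_insert, mem_singleton] at ht
      rcases ht with rfl | rfl | rfl | rfl
      · rw [zero_smul, add_zero]
        exact mem_image_of_mem _ (mem_univ i)
      · exact key _ _ e₁
      · exact key _ _ e₂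
      · exact key _ _ e₃
  · intro p hp q hq v hv hpq
    obtain ⟨i, rfl⟩ := hPi p hp
    obtain ⟨l, rfl⟩ := hPi q hq
    obtain ⟨N, x, hN0, hx⟩ := exists_int v
    have hNq : (N : ℚ) ≠ 0 := by exact_mod_cast hN0.ne'
    rw [← mem_KK_smul X _ v hNq, hx, mem_KK] at hv ⊢
    have h3 : (X.a l - X.a i) ⬝ᵥ x = 0 := by
      have h4 : (cv (X.a l) - cv (X.a i)) ⬝ᵥ ((N : ℚ) • v) = 0 := by
        rw [dotProduct_smul, hpq, smul_zero]
      rw [hx, sub_dotProduct, cv_dot, cv_dot] at h4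
      rw [sub_dotProduct]
      exact_mod_cast h4
    rw [← hv, Dsq_eq, Dsq_eq]
    rw [sub_dotProduct, sub_eq_zero] at h3
    rw [h3]
  · intro v hv
    obtain ⟨N, x, hN0, hx⟩ := exists_int v
    have hNq : (N : ℚ) ≠ 0 := by exact_mod_cast hN0.ne'
    have h3 : x = 0 := by
      apply X.eff
      intro i l
      have h4 := hv (cv (X.a l)) (mem_image_of_mem _ (mem_univ l)) (cv (X.a i))
        (mem_image_of_mem _ (mem_univ i))
      have h5 : (cv (X.a i) - cv (X.a l)) ⬝ᵥ ((N : ℚ) • v) = 0 := by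
        rw [dotProduct_smul, h4, smul_zero]
      rw [hx, sub_dotProduct, cv_dot, cv_dot, sub_eq_zero] at h5
      exact_mod_cast h5
    rw [h3] at hx
    have h6 : cv (0 : Fin k → ℤ) = 0 := by
      ext j
      simp [cv]
    rw [h6] at hx
    exact (smul_eq_zero.1 hx).resolve_left hNq

end Pool.Agent.Helper49.Petrie.H
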