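import Pool.Agent.Helper49.Petrie.Defs

/-!
# Auxiliary definitions for the proof
-/

namespace Pool.Agent.Helper49.Petrie

open Finset

/-- The finite family `t` is dominated by the finite family `s`. -/
structure Dom {ι κ : Type} [Fintype ι] [Fintype κ] (s : ι → ℤ) (t : κ → ℤ) : Prop where
  zero : #{j | t j = 0} = #{i | s i = 0}
  le : ∀ m : ℕ, 0 < m → #{j | (m : ℤ) ∣ t j} ≤ #{i | (m : ℤ) ∣ s i}

/-- `u` is a primitive integral vector. -/
def Prim {k : ℕ} (u : Fin k → ℤ) : Prop := ∃ v : Fin k → ℤ, u ⬝ᵥ v = 1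

/-- Number of `l ≠ i` with `a l - a i` in `ℤ u`. -/
noncomputable def dA {k n : ℕ} (X : TorusAction k n) (i : Fin (n + 1)) (u : Fin k → ℤ) : ℕ := by
  classical exact #{l | l ≠ i ∧ ∃ z : ℤ, X.a l - X.a i = z • u}

/-- Number of weights at `i` in `ℤ u`. -/
noncomputable def dW {k n : ℕ} (X : TorusAction k n) (i : Fin (n + 1)) (u : Fin k → ℤ) : ℕ := by
  classical exact #{j | ∃ z : ℤ, X.w i j = z • u}

/-- The defect form `D_i(v)`. -/
def Dsq {k n : ℕ} (X : TorusAction k n) (i : Fin (n + 1)) (v : Fin k → ℤ) : ℤ :=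
  ∑ l, ((X.a l - X.a i) ⬝ᵥ v) ^ 2 - ∑ j, (X.w i j ⬝ᵥ v) ^ 2

/-- `u` is a special direction at `i`. -/
def Special {k n : ℕ} (X : TorusAction k n) (i : Fin (n + 1)) (u : Fin k → ℤ) : Prop :=
  Prim u ∧ ∃ m : ℕ, 0 < m ∧ dW X i ((m : ℤ) • u) ≠ dA X i ((m : ℤ) • u)

end Pool.Agent.Helper49.Petrie
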