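import Mathlib

/-!
# Fixed point data of torus actions on homotopy complex projective spaces

`M` is a closed smooth manifold homotopy equivalent to `CP^n`, `x` a generator of `H^2(M; ℤ)`, `L`
the line bundle with first Chern class `x`. The torus `T = T^k` acts smoothly and almost
effectively on `M`; the action lifts to `L`. Every component `F` of the fixed point set `M^T` is
an integral cohomology `CP^{n_F}` and the numbers `n_F + 1` add up to `n + 1`; we list every
component `F` exactly `n_F + 1` times, which gives `n + 1` indices `i`. Different components have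
different weights of `T` on the fibre of `L`, so the number of components of `M^T` is the number
of different weights.

`TorusAction k n` collects the numerical facts about this situation which are used. Each of them
is a published theorem, quoted at its field. The results of this project are theorems about this
numerical data.
-/

namespace Pool.Agent.Helper49.Petrie

open Finset

/-- The power series `(√Y/2) / sinh(√Y/2)` in the variable `Y = x^2` (the characteristic
power series of the Â-class). -/
noncomputable def ahatSeries : PowerSeries ℂ :=
  (PowerSeries.mk fun s => ((4 : ℂ) ^ s * ((2 * s + 1).factorial : ℂ))⁻¹)⁻¹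

/-- The Â-class `∏_j (√(r_j) x/2) / sinh(√(r_j) x/2)` as a power series in `Y = x^2`, for the
formal Pontrjagin roots `r_j` (so `p = ∏_j (1 + r_j x^2)`). -/
noncomputable def ahatClass {m : ℕ} (r : Fin m → ℂ) : PowerSeries ℂ :=
  ∏ j, PowerSeries.rescale (r j) ahatSeries

/-- `∫_M e^{c x / 2} Â(M)`: the index of the Spin^c Dirac operator of `M` with canonical
class `c x`. -/
noncomputable def diracIndex (n : ℕ) {m : ℕ} (r : Fin m → ℂ) (c : ℤ) : ℂ :=
  ∑ s ∈ range (n / 2 + 1),
    ((c : ℂ) / 2) ^ (n - 2 * s) / ((n - 2 * s).factorial : ℂ) *
      PowerSeries.coeff s (ahatClass r)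

/-- The number of members of the family `y` which are divisible by `m`
(for `m = 0`: which are zero). -/
def cntW {n : ℕ} (y : Fin n → ℤ) (m : ℕ) : ℕ := #{j | (m : ℤ) ∣ y j}

/-- The number of `l ≠ i` with `x l ≡ x i` modulo `m` (for `m = 0`: with `x l = x i`). -/
def cntA {n : ℕ} (x : Fin (n + 1) → ℤ) (i : Fin (n + 1)) (m : ℕ) : ℕ :=
  #{l | l ≠ i ∧ (m : ℤ) ∣ x l - x i}

/-- Numerical facts about a smooth circle action on a homotopy `CP^n` with formal Pontrjagin
roots `r`. Here `x i` is the weight of the circle on the fibre of `L` over the `i`-th fixed
component and `y i j`, `j < n`, are its weights on the tangent space there (zero weights included;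
tangent weights matter only up to sign). -/
structure IsCircleData (n : ℕ) (r : Fin (n / 2) → ℂ) (x : Fin (n + 1) → ℤ)
    (y : Fin (n + 1) → Fin n → ℤ) : Prop where
  /-- Smith theory (Bredon, Introduction to compact transformation groups, chapter VII): for
  `m = 0` and for prime powers `m` the component through `i` of the fixed set of the circle,
  of its subgroup of order `m`, is a cohomology complex projective space (modulo the prime) of
  complex dimension the number of `l ≠ i` in it, and these are the `l` with `x l ≡ x i` mod `m`. -/
  smith : ∀ (i : Fin (n + 1)) (m : ℕ), (m = 0 ∨ IsPrimePow m) → cntW (y i) m = cntA x i m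
  /-- Index theorem (Petrie): up to units and vanishing factors, the product of the
  `1 - t ^ (y i j)` divides the product over `l ≠ i` of the `1 - t ^ (x l - x i)` in
  `ℤ[t, t⁻¹]`; compare the orders at primitive `m`-th roots of unity. -/
  index_le : ∀ (i : Fin (n + 1)) (m : ℕ), cntW (y i) m ≤ cntA x i m
  /-- Index theorem (Petrie): the quotients `U i` of these products satisfy `U i = ± t ^ e U l`
  modulo `1 - t ^ (x l - x i)`; so if `m` divides `x l - x i` and `U i` does not vanish at the
  primitive `m`-th roots of unity, neither does `U l`. -/
  index_eq : ∀ (i l : Fin (n + 1)) (m : ℕ), (m : ℤ) ∣ x l - x i → cntW (y i) m = cntA x i m →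
    cntW (y l) m = cntA x l m
  /-- If `x i = x l` then `i` and `l` lie in one component of the fixed set of the circle, so the
  tangent representations agree: the same weights up to order and signs. -/
  conn : ∀ i l, x i = x l → ∀ d : ℕ, #{j | (y i j).natAbs = d} = #{j | (y l j).natAbs = d}
  /-- Vanishing of Dirac indices (the argument of Atiyah and Hirzebruch): for `c ≡ n + 1`
  modulo 2 the equivariant index of the Spin^c Dirac operator with canonical class `c x` is a
  Laurent polynomial in `t ^ (1/2)` whose exponents are at most the maximum of the
  `(c x i - ∑ j, |y i j|) / 2` and at least the minimum of the `(c x i + ∑ j, |y i j|) / 2`;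
  so it vanishes if all these maxima are below the minima. -/
  dirac : ∀ c : ℤ, Even (c + (n + 1)) →
    (∀ i l, |c| * |x i - x l| < ∑ j, |y i j| + ∑ j, |y l j|) → diracIndex n r c = 0

/-- Numerical data of a smooth almost effective action of `T^k` on a homotopy `CP^n`. -/
structure TorusAction (k n : ℕ) where
  /-- The Pontrjagin classes of `M` are `p s • x ^ (2 s)`. -/
  p : ℕ → ℤ
  /-- Formal Pontrjagin roots (some of them may be zero). -/
  r : Fin (n / 2) → ℂ
  /-- `p(M) = ∏_j (1 + r_j x^2)`. -/
  p_eq : ∀ s, 2 * s ≤ n →
    (p s : ℂ) = (∏ j, (1 + Polynomial.C (r j) * Polynomial.X)).coeff s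
  /-- `a i` is the weight of `T` on the fibre of `L` over the `i`-th component of `M^T` (every
  component `F` is listed `n_F + 1` times). -/
  a : Fin (n + 1) → Fin k → ℤ
  /-- `w i j`, `j < n`, are the weights of `T` on the tangent space of `M` at a point of the
  `i`-th component (each up to sign, zero weights included). -/
  w : Fin (n + 1) → Fin n → Fin k → ℤ
  /-- The facts about circle actions hold for every one-parameter subgroup `v`. -/
  circle : ∀ v : Fin k → ℤ, IsCircleData n r (fun i => a i ⬝ᵥ v) (fun i j => w i j ⬝ᵥ v)
  /-- The coefficient of `x_T` in the equivariant first Pontrjagin class. -/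
  β : Fin k → ℤ
  /-- The part of the equivariant first Pontrjagin class which comes from `BT`. -/
  γ : Matrix (Fin k) (Fin k) ℤ
  /-- The equivariant first Pontrjagin class is `p_1 x_T^2 + β x_T + γ` (Leray-Hirsch); its
  restriction to a fixed point is the sum of the squares of the tangent weights. -/
  pont : ∀ i v, ∑ j, (w i j ⬝ᵥ v) ^ 2 =
    p 1 * (a i ⬝ᵥ v) ^ 2 + (β ⬝ᵥ v) * (a i ⬝ᵥ v) + v ⬝ᵥ (γ.mulVec v)
  /-- The action is almost effective: only the trivial one-parameter subgroup has all its weights
  on `L` equal. -/
  eff : ∀ v : Fin k → ℤ, (∀ i l, a i ⬝ᵥ v = a l ⬝ᵥ v) → v = 0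

end Pool.Agent.Helper49.Petrie
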