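import Pool.Agent.Helper49.Petrie.Arith
import Pool.Agent.Helper57.Petrie.B

/-!
# Row D: decomposition into directions
-/

namespace Pool.Agent.Helper49.Petrie.D

open Finset Pool.Agent.Helper49.Petrie Pool.Agent.Helper57.Petrie

theorem card_sub {α : Type} [Fintype α] (q P : α → Prop) [DecidablePred q] [DecidablePred P] :
    #{l : {l // q l} | P l} = #{l | q l ∧ P l} := by
  classical
  rw [← card_map (Function.Embedding.subtype q)]
  congr 1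
  ext l
  simp [and_comm]

section
variable {k n : ℕ} (X : TorusAction k n) (i : Fin (n + 1))

theorem dom_circle (v : Fin k → ℤ) :
    Dom (fun l : {l // l ≠ i} => X.a l ⬝ᵥ v - X.a i ⬝ᵥ v) (fun j => X.w i j ⬝ᵥ v) := by
  constructor
  · have h := (X.circle v).smith i 0 (Or.inl rfl)
    unfold cntW cntA at h
    rw [card_sub (fun l => l ≠ i) (fun l => X.a l ⬝ᵥ v - X.a i ⬝ᵥ v = 0)]
    simpa using h
  · intro m _
    have h := (X.circle v).index_le i m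
    unfold cntW cntA at h
    rw [card_sub (fun l => l ≠ i) (fun l => (m : ℤ) ∣ X.a l ⬝ᵥ v - X.a i ⬝ᵥ v)]
    exact h

theorem sum_sub' (g : Fin (n + 1) → ℤ) (hg : g i = 0) :
    ∑ l, g l = ∑ l : {l // l ≠ i}, g l := by
  rw [← sum_subtype (univ.erase i) (p := fun l => l ≠ i) (by simp) g,
    ← sum_erase_add univ g (mem_univ i), hg, add_zero]

theorem Dsq_circle (v : Fin k → ℤ) : Dsq X i v =
    ∑ l : {l // l ≠ i}, (X.a l ⬝ᵥ v - X.a i ⬝ᵥ v) ^ 2 - ∑ j, (X.w i j ⬝ᵥ v) ^ 2 := by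
  unfold Dsq
  rw [sum_sub' i (fun l => ((X.a l - X.a i) ⬝ᵥ v) ^ 2) (by simp)]
  simp only [sub_dotProduct]

theorem Dsq_nonneg (v : Fin k → ℤ) : 0 ≤ Dsq X i v := by
  rw [Dsq_circle]
  have := A.Dom.sq_le (dom_circle X i v)
  linarith

theorem sum_eq_of_Dsq_eq_zero (v : Fin k → ℤ) (h : Dsq X i v = 0) (f : ℕ → ℤ) :
    ∑ j, f (X.w i j ⬝ᵥ v).natAbs =
      ∑ l ∈ univ.filter (fun l => l ≠ i), f ((X.a l - X.a i) ⬝ᵥ v).natAbs := by
  rw [Dsq_circle] at h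
  have hd := dom_circle X i v
  have h1 := A.sum_eq_of_card_eq hd.zero (A.Dom.card_eq hd (by linarith)) f
  rw [h1]
  have h2 : ∑ l ∈ univ.filter (fun l => l ≠ i), f ((X.a l - X.a i) ⬝ᵥ v).natAbs =
      ∑ l : {l // l ≠ i}, f ((X.a l - X.a i) ⬝ᵥ v).natAbs :=
    sum_subtype _ (by simp) (fun l => f ((X.a l - X.a i) ⬝ᵥ v).natAbs)
  rw [h2]
  simp only [sub_dotProduct]

/-! ## vectors -/

/-- sums over all vectors at `i` -/
def NV (g : (Fin k → ℤ) → ℤ) : ℤ := ∑ l, g (X.a l - X.a i) - ∑ j, g (X.w i j)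

/-- the direction of a vector -/
def dirOf (x : Fin k → ℤ) : Set (Fin k → ℤ) := {u | Prim u ∧ ∃ z : ℤ, x = z • u}

theorem NV_congr {g g' : (Fin k → ℤ) → ℤ} (h : ∀ x, g x = g' x) : NV X i g = NV X i g' := by
  rw [show g = g' from funext h]

theorem NV_sum {α : Type} (K : Finset α) (g : α → (Fin k → ℤ) → ℤ) :
    NV X i (fun x => ∑ κ ∈ K, g κ x) = ∑ κ ∈ K, NV X i (g κ) := by
  unfold NV
  rw [sum_sub_distrib, sum_comm, sum_comm (s := univ) (t := K) (f := fun j κ => g κ (X.w i j))]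

theorem NV_const_mul (c : ℤ) (g : (Fin k → ℤ) → ℤ) :
    NV X i (fun x => c * g x) = c * NV X i g := by
  unfold NV
  rw [mul_sub, mul_sum, mul_sum]

theorem prim_unique {u u' : Fin k → ℤ} (hu : Prim u) (hu' : Prim u') {z z' : ℤ} (hz : z ≠ 0)
    (h : z • u = z' • u') : u' = u ∨ u' = -u := by
  obtain ⟨v, hv⟩ := hu
  obtain ⟨v', hv'⟩ := hu'
  have h1 := congrArg (fun x => x ⬝ᵥ v) h
  have h2 := congrArg (fun x => x ⬝ᵥ v') h
  simp only [smul_dotProduct, smul_eq_mul, hv, hv', mul_one] at h1 h2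
  have h3 : (u ⬝ᵥ v') * (u' ⬝ᵥ v) = 1 := by
    have : z * ((u ⬝ᵥ v') * (u' ⬝ᵥ v)) = z * 1 := by
      rw [← mul_assoc, h2, ← h1, mul_one]
    exact mul_left_cancel₀ hz this
  have hz' : z' ≠ 0 := by
    rintro rfl
    simp at h1
    exact hz h1
  rcases Int.eq_one_or_neg_one_of_mul_eq_one' h3 with ⟨_, h5⟩ | ⟨_, h5⟩
  · left
    rw [h5, mul_one] at h1
    rw [h1] at h
    exact (smul_right_injective _ hz' h).symm
  · right
    rw [h5, mul_neg, mul_one] at h1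
    rw [h1, neg_smul, ← smul_neg] at h
    exact (smul_right_injective _ hz' h).symm

theorem dirOf_eq_iff {x y u : Fin k → ℤ} (hx : x ≠ 0) (hy : y ≠ 0) (hu : Prim u)
    (h : ∃ z : ℤ, x = z • u) : dirOf y = dirOf x ↔ ∃ z : ℤ, y = z • u := by
  constructor
  · intro he
    have h1 : u ∈ dirOf y := by
      rw [he]
      exact ⟨hu, h⟩
    exact h1.2
  · intro hy'
    have key : ∀ {x y : Fin k → ℤ}, x ≠ 0 → (∃ z : ℤ, x = z • u) → (∃ z : ℤ, y = z • u) →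
        dirOf x ⊆ dirOf y := by
      rintro x y hx ⟨z, rfl⟩ ⟨w, rfl⟩ u' ⟨hu', z', h1⟩
      have hz : z ≠ 0 := by
        rintro rfl
        simp at hx
      refine ⟨hu', ?_⟩
      rcases prim_unique hu hu' hz h1 with h2 | h2
      · exact ⟨w, by rw [h2]⟩
      · exact ⟨-w, by rw [h2]; simp⟩
    exact Set.Subset.antisymm (key hy hy' h) (key hx h hy')

open Classical in
theorem NV_partition (g : (Fin k → ℤ) → ℤ) (hg : g 0 = 0) (K : Finset (Set (Fin k → ℤ)))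
    (h1 : ∀ l, X.a l - X.a i ≠ 0 → dirOf (X.a l - X.a i) ∈ K)
    (h2 : ∀ j, X.w i j ≠ 0 → dirOf (X.w i j) ∈ K) :
    NV X i g = ∑ κ ∈ K, NV X i (fun x => if x ≠ 0 ∧ dirOf x = κ then g x else 0) := by
  rw [← NV_sum]
  unfold NV
  have key : ∀ x, (x ≠ 0 → dirOf x ∈ K) →
      g x = ∑ κ ∈ K, if x ≠ 0 ∧ dirOf x = κ then g x else 0 := by
    intro x hx
    by_cases h0 : x = 0
    · simp [h0, hg]
    · simp only [ne_eq, h0, not_false_eq_true, true_and]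
      rw [sum_ite_eq K (dirOf x) (fun _ => g x), if_pos (hx h0)]
  congr 1
  · exact sum_congr rfl fun l _ => key _ (h1 l)
  · exact sum_congr rfl fun j _ => key _ (h2 j)

theorem exists_keys : ∃ K : Finset (Set (Fin k → ℤ)),
    (∀ l, X.a l - X.a i ≠ 0 → dirOf (X.a l - X.a i) ∈ K) ∧
    (∀ j, X.w i j ≠ 0 → dirOf (X.w i j) ∈ K) := by
  classical
  refine ⟨univ.image (fun l => dirOf (X.a l - X.a i)) ∪ univ.image (fun j => dirOf (X.w i j)),
    fun l _ => ?_, fun j _ => ?_⟩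
  · exact mem_union_left _ (mem_image_of_mem _ (mem_univ l))
  · exact mem_union_right _ (mem_image_of_mem _ (mem_univ j))

open Classical in
/-- each class is empty or the class of a primitive vector -/
theorem class_cases (κ : Set (Fin k → ℤ)) :
    (∀ g : (Fin k → ℤ) → ℤ, NV X i (fun x => if x ≠ 0 ∧ dirOf x = κ then g x else 0) = 0) ∨
    ∃ u, Prim u ∧ ∀ x, x ≠ 0 → (dirOf x = κ ↔ ∃ z : ℤ, x = z • u) := by
  by_cases h : ∃ x : Fin k → ℤ, x ≠ 0 ∧ dirOf x = κ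
  · right
    obtain ⟨x, hx, rfl⟩ := h
    obtain ⟨u, z, hu, hz⟩ := exists_prim x hx
    exact ⟨u, hu, fun y hy => dirOf_eq_iff hx hy hu ⟨z, hz⟩⟩
  · left
    intro g
    push Not at h
    unfold NV
    rw [sum_eq_zero, sum_eq_zero, sub_zero]
    · intro j _
      apply if_neg
      rintro ⟨h1, h2⟩
      exact h _ h1 h2
    · intro l _
      apply if_neg
      rintro ⟨h1, h2⟩
      exact h _ h1 h2

open Classical in
theorem dom_dir (u v₁ : Fin k → ℤ) (hu : u ⬝ᵥ v₁ = 1) :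
    Dom (fun l : {l // l ≠ i ∧ ∃ z : ℤ, X.a l - X.a i = z • u} => (X.a l - X.a i) ⬝ᵥ v₁)
      (fun j : {j // ∃ z : ℤ, X.w i j = z • u} => X.w i j ⬝ᵥ v₁) := by
  have hpr : Prim u := ⟨v₁, hu⟩
  have hz : ∀ x : Fin k → ℤ, ((∃ z : ℤ, x = z • u) ∧ x ⬝ᵥ v₁ = 0) ↔ x = 0 := by
    intro x
    constructor
    · rintro ⟨⟨z, rfl⟩, h⟩
      rw [smul_dotProduct, hu, smul_eq_mul, mul_one] at h
      rw [h, zero_smul]
    · rintro rfl
      exact ⟨⟨0, by simp⟩, by simp⟩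
  have hm : ∀ (x : Fin k → ℤ) (m : ℕ), ((∃ z : ℤ, x = z • u) ∧ (m : ℤ) ∣ x ⬝ᵥ v₁) ↔
      ∃ z : ℤ, x = z • ((m : ℤ) • u) := by
    intro x m
    constructor
    · rintro ⟨⟨z, rfl⟩, h⟩
      rw [smul_dotProduct, hu, smul_eq_mul, mul_one] at h
      obtain ⟨c, rfl⟩ := h
      exact ⟨c, by rw [smul_smul, mul_comm]⟩
    · rintro ⟨z, rfl⟩
      refine ⟨⟨z * m, by rw [smul_smul]⟩, ?_⟩
      rw [smul_smul, smul_dotProduct, hu, smul_eq_mul, mul_one]
      exact dvd_mul_left _ _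
  constructor
  · rw [card_sub (fun l => l ≠ i ∧ ∃ z : ℤ, X.a l - X.a i = z • u)
        (fun l => (X.a l - X.a i) ⬝ᵥ v₁ = 0),
      card_sub (fun j => ∃ z : ℤ, X.w i j = z • u) (fun j => X.w i j ⬝ᵥ v₁ = 0)]
    have h := dir_zero X i
    simp only [hz, and_assoc]
    rw [h]
    simp only [sub_eq_zero]
  · intro m hm0
    rw [card_sub (fun l => l ≠ i ∧ ∃ z : ℤ, X.a l - X.a i = z • u)
        (fun l => (m : ℤ) ∣ (X.a l - X.a i) ⬝ᵥ v₁),
      card_sub (fun j => ∃ z : ℤ, X.w i j = z • u) (fun j => (m : ℤ) ∣ X.w i j ⬝ᵥ v₁)]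
    have h := dir_le X i u hpr m hm0
    unfold dW dA at h
    simp only [hm, and_assoc]
    exact h

open Classical in
theorem NV_dir (u v₁ : Fin k → ℤ) (hu : u ⬝ᵥ v₁ = 1) (h : ℕ → ℤ) (h0 : h 0 = 0)
    (g : (Fin k → ℤ) → ℤ) (hg : ∀ z : ℤ, g (z • u) = h z.natAbs) :
    NV X i (fun x => if x ≠ 0 ∧ ∃ z : ℤ, x = z • u then g x else 0) =
      ∑ l : {l // l ≠ i ∧ ∃ z : ℤ, X.a l - X.a i = z • u}, h ((X.a l - X.a i) ⬝ᵥ v₁).natAbs -
      ∑ j : {j // ∃ z : ℤ, X.w i j = z • u}, h (X.w i j ⬝ᵥ v₁).natAbs := by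
  have key : ∀ x : Fin k → ℤ, (if x ≠ 0 ∧ ∃ z : ℤ, x = z • u then g x else 0) =
      if (∃ z : ℤ, x = z • u) then h (x ⬝ᵥ v₁).natAbs else 0 := by
    intro x
    by_cases hx : ∃ z : ℤ, x = z • u
    · obtain ⟨z, rfl⟩ := hx
      have h1 : (z • u) ⬝ᵥ v₁ = z := by
        rw [smul_dotProduct, hu, smul_eq_mul, mul_one]
      rw [if_pos (⟨z, rfl⟩ : ∃ z' : ℤ, z • u = z' • u), h1]
      by_cases h2 : z • u = 0
      · rw [h2, zero_dotProduct] at h1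
        rw [if_neg (by simp [h2]), ← h1]
        simp [h0]
      · rw [if_pos ⟨h2, z, rfl⟩, hg]
    · rw [if_neg (fun h => hx h.2), if_neg hx]
  rw [NV_congr X i key]
  unfold NV
  congr 1
  · have h1 : ∀ l, (if (∃ z : ℤ, X.a l - X.a i = z • u) then
        h ((X.a l - X.a i) ⬝ᵥ v₁).natAbs else 0) =
        if (l ≠ i ∧ ∃ z : ℤ, X.a l - X.a i = z • u) then
        h ((X.a l - X.a i) ⬝ᵥ v₁).natAbs else 0 := by
      intro l
      by_cases hl : l = i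
      · subst hl
        simp [h0]
      · simp only [ne_eq, hl, not_false_eq_true, true_and]
    rw [sum_congr rfl fun l _ => h1 l, ← sum_filter]
    exact sum_subtype _ (by simp) (fun l => h ((X.a l - X.a i) ⬝ᵥ v₁).natAbs)
  · rw [← sum_filter]
    exact sum_subtype _ (by simp) (fun j => h (X.w i j ⬝ᵥ v₁).natAbs)

open Classical in
theorem dir_card_iff (u v₁ : Fin k → ℤ) (hu : u ⬝ᵥ v₁ = 1) (hns : ¬ Special X i u) (h : ℕ → ℤ) :
    ∑ j : {j // ∃ z : ℤ, X.w i j = z • u}, h (X.w i j ⬝ᵥ v₁).natAbs =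
    ∑ l : {l // l ≠ i ∧ ∃ z : ℤ, X.a l - X.a i = z • u}, h ((X.a l - X.a i) ⬝ᵥ v₁).natAbs := by
  have hpr : Prim u := ⟨v₁, hu⟩
  have hd := dom_dir X i u v₁ hu
  apply A.sum_eq_of_card_eq hd.zero
  intro m hm0
  have hm : ∀ (x : Fin k → ℤ) (m : ℕ), ((∃ z : ℤ, x = z • u) ∧ (m : ℤ) ∣ x ⬝ᵥ v₁) ↔
      ∃ z : ℤ, x = z • ((m : ℤ) • u) := by
    intro x m
    constructor
    · rintro ⟨⟨z, rfl⟩, h⟩
      rw [smul_dotProduct, hu, smul_eq_mul, mul_one] at h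
      obtain ⟨c, rfl⟩ := h
      exact ⟨c, by rw [smul_smul, mul_comm]⟩
    · rintro ⟨z, rfl⟩
      refine ⟨⟨z * m, by rw [smul_smul]⟩, ?_⟩
      rw [smul_smul, smul_dotProduct, hu, smul_eq_mul, mul_one]
      exact dvd_mul_left _ _
  have h1 : dW X i ((m : ℤ) • u) = dA X i ((m : ℤ) • u) := by
    by_contra hne
    exact hns ⟨hpr, m, hm0, hne⟩
  unfold dW dA at h1
  rw [card_sub (fun l => l ≠ i ∧ ∃ z : ℤ, X.a l - X.a i = z • u)
      (fun l => (m : ℤ) ∣ (X.a l - X.a i) ⬝ᵥ v₁),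
    card_sub (fun j => ∃ z : ℤ, X.w i j = z • u) (fun j => (m : ℤ) ∣ X.w i j ⬝ᵥ v₁)]
  simp only [hm, and_assoc]
  exact h1

open Classical in
theorem special_of_card (u v₁ : Fin k → ℤ) (hu : u ⬝ᵥ v₁ = 1)
    (he : ∑ j : {j // ∃ z : ℤ, X.w i j = z • u}, (X.w i j ⬝ᵥ v₁) ^ 2 =
      ∑ l : {l // l ≠ i ∧ ∃ z : ℤ, X.a l - X.a i = z • u}, ((X.a l - X.a i) ⬝ᵥ v₁) ^ 2) :
    ¬ Special X i u := by
  have hpr : Prim u := ⟨v₁, hu⟩
  have hd := dom_dir X i u v₁ hu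
  rintro ⟨_, m, hm0, hne⟩
  apply hne
  have h1 := A.Dom.card_eq hd he m hm0
  have hm : ∀ (x : Fin k → ℤ) (m : ℕ), ((∃ z : ℤ, x = z • u) ∧ (m : ℤ) ∣ x ⬝ᵥ v₁) ↔
      ∃ z : ℤ, x = z • ((m : ℤ) • u) := by
    intro x m
    constructor
    · rintro ⟨⟨z, rfl⟩, h⟩
      rw [smul_dotProduct, hu, smul_eq_mul, mul_one] at h
      obtain ⟨c, rfl⟩ := h
      exact ⟨c, by rw [smul_smul, mul_comm]⟩
    · rintro ⟨z, rfl⟩
      refine ⟨⟨z * m, by rw [smul_smul]⟩, ?_⟩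
      rw [smul_smul, smul_dotProduct, hu, smul_eq_mul, mul_one]
      exact dvd_mul_left _ _
  unfold dW dA
  rw [card_sub (fun l => l ≠ i ∧ ∃ z : ℤ, X.a l - X.a i = z • u)
      (fun l => (m : ℤ) ∣ (X.a l - X.a i) ⬝ᵥ v₁),
    card_sub (fun j => ∃ z : ℤ, X.w i j = z • u) (fun j => (m : ℤ) ∣ X.w i j ⬝ᵥ v₁)] at h1
  simp only [hm, and_assoc] at h1
  exact h1

open Classical in
/-- the contribution of a class to `D_i(v)` -/
theorem class_sq (u v₁ v : Fin k → ℤ) (hu : u ⬝ᵥ v₁ = 1) :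
    NV X i (fun x => if x ≠ 0 ∧ ∃ z : ℤ, x = z • u then (x ⬝ᵥ v) ^ 2 else 0) =
      (u ⬝ᵥ v) ^ 2 * (∑ l : {l // l ≠ i ∧ ∃ z : ℤ, X.a l - X.a i = z • u},
        ((X.a l - X.a i) ⬝ᵥ v₁) ^ 2 - ∑ j : {j // ∃ z : ℤ, X.w i j = z • u},
        (X.w i j ⬝ᵥ v₁) ^ 2) := by
  have h1 := NV_dir X i u v₁ hu (fun d => (u ⬝ᵥ v) ^ 2 * (d : ℤ) ^ 2) (by simp)
    (fun x => (x ⬝ᵥ v) ^ 2) (fun z => by
      rw [smul_dotProduct, smul_eq_mul, Int.natCast_natAbs, sq_abs]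
      ring)
  rw [h1, mul_sub, mul_sum, mul_sum]
  simp only [Int.natCast_natAbs, sq_abs]

open Classical in
theorem class_nonneg (u v₁ : Fin k → ℤ) (hu : u ⬝ᵥ v₁ = 1) :
    0 ≤ (∑ l : {l // l ≠ i ∧ ∃ z : ℤ, X.a l - X.a i = z • u},
        ((X.a l - X.a i) ⬝ᵥ v₁) ^ 2 - ∑ j : {j // ∃ z : ℤ, X.w i j = z • u},
        (X.w i j ⬝ᵥ v₁) ^ 2) := by
  have := A.Dom.sq_le (dom_dir X i u v₁ hu)
  linarith

open Classical in
theorem class_rw {κ : Set (Fin k → ℤ)} {u : Fin k → ℤ}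
    (h : ∀ x, x ≠ 0 → (dirOf x = κ ↔ ∃ z : ℤ, x = z • u)) (g : (Fin k → ℤ) → ℤ) :
    NV X i (fun x => if x ≠ 0 ∧ dirOf x = κ then g x else 0) =
    NV X i (fun x => if x ≠ 0 ∧ ∃ z : ℤ, x = z • u then g x else 0) := by
  apply NV_congr
  intro x
  by_cases hx : x = 0
  · simp [hx]
  · simp only [ne_eq, hx, not_false_eq_true, true_and, h x hx]

theorem Dsq_eq_zero_iff (v : Fin k → ℤ) :
    Dsq X i v = 0 ↔ ∀ u, Special X i u → u ⬝ᵥ v = 0 := by
  classical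
  obtain ⟨K, hK1, hK2⟩ := exists_keys X i
  have hD : ∀ K' : Finset (Set (Fin k → ℤ)), K ⊆ K' → Dsq X i v =
      ∑ κ ∈ K', NV X i (fun x => if x ≠ 0 ∧ dirOf x = κ then (x ⬝ᵥ v) ^ 2 else 0) := by
    intro K' hKK
    exact NV_partition X i (fun x => (x ⬝ᵥ v) ^ 2) (by simp) K'
      (fun l hl => hKK (hK1 l hl)) (fun j hj => hKK (hK2 j hj))
  have hpos : ∀ κ : Set (Fin k → ℤ),
      0 ≤ NV X i (fun x => if x ≠ 0 ∧ dirOf x = κ then (x ⬝ᵥ v) ^ 2 else 0) := by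
    intro κ
    rcases class_cases X i κ with h | ⟨u, hu, h⟩
    · rw [h]
    · obtain ⟨v₁, hv₁⟩ := hu
      have e1 := class_rw X i h (fun x => (x ⬝ᵥ v) ^ 2)
      have e2 := class_sq X i u v₁ v hv₁
      rw [e1, e2]
      exact mul_nonneg (sq_nonneg _) (class_nonneg X i u v₁ hv₁)
  constructor
  · intro h0 u hsp
    by_contra hne
    obtain ⟨v₁, hv₁⟩ := hsp.1
    have hu0 : u ≠ 0 := by
      rintro rfl
      simp at hv₁
    have hcl : ∀ x, x ≠ 0 → (dirOf x = dirOf u ↔ ∃ z : ℤ, x = z • u) := fun x hx =>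
      dirOf_eq_iff hu0 hx hsp.1 ⟨1, by simp⟩
    rw [hD (insert (dirOf u) K) (subset_insert _ _)] at h0
    have h1 := (sum_eq_zero_iff_of_nonneg fun κ _ => hpos κ).1 h0 (dirOf u)
      (mem_insert_self _ _)
    have e1 := class_rw X i hcl (fun x => (x ⬝ᵥ v) ^ 2)
    have e2 := class_sq X i u v₁ v hv₁
    rw [e1, e2] at h1
    have h2 := (mul_eq_zero.1 h1).resolve_left (pow_ne_zero 2 hne)
    exact special_of_card X i u v₁ hv₁ (by linarith) hsp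
  · intro h
    rw [hD K (Subset.refl _)]
    apply sum_eq_zero
    intro κ _
    rcases class_cases X i κ with h1 | ⟨u, hu, h1⟩
    · exact h1 _
    · obtain ⟨v₁, hv₁⟩ := hu
      have e1 := class_rw X i h1 (fun x => (x ⬝ᵥ v) ^ 2)
      have e2 := class_sq X i u v₁ v hv₁
      rw [e1, e2]
      by_cases hsp : Special X i u
      · rw [h u hsp]
        ring
      · have e3 := dir_card_iff X i u v₁ hv₁ hsp (fun d => (d : ℤ) ^ 2)
        simp only [Int.natCast_natAbs, sq_abs] at e3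
        rw [e3, sub_self, mul_zero]

theorem sum_eq_of_Dsq_zero (v₀ : Fin k → ℤ) (h : Dsq X i v₀ = 0) (v : Fin k → ℤ) (f : ℕ → ℤ) :
    ∑ j ∈ univ.filter (fun j => X.w i j ⬝ᵥ v₀ ≠ 0), f (X.w i j ⬝ᵥ v).natAbs =
      ∑ l ∈ univ.filter (fun l => (X.a l - X.a i) ⬝ᵥ v₀ ≠ 0),
        f ((X.a l - X.a i) ⬝ᵥ v).natAbs := by
  classical
  obtain ⟨K, hK1, hK2⟩ := exists_keys X i
  set g : (Fin k → ℤ) → ℤ := fun x => if x ⬝ᵥ v₀ ≠ 0 then f (x ⬝ᵥ v).natAbs else 0 with hg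
  have hpart := NV_partition X i g (by simp [hg]) K hK1 hK2
  have hzero : NV X i g = 0 := by
    rw [hpart]
    apply sum_eq_zero
    intro κ _
    rcases class_cases X i κ with h1 | ⟨u, hu, h1⟩
    · exact h1 _
    · obtain ⟨v₁, hv₁⟩ := hu
      have e1 := class_rw X i h1 g
      rw [e1]
      by_cases h2 : u ⬝ᵥ v₀ = 0
      · have h3 : ∀ x, (if x ≠ 0 ∧ ∃ z : ℤ, x = z • u then g x else 0) = 0 := by
          intro x
          by_cases h4 : x ≠ 0 ∧ ∃ z : ℤ, x = z • u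
          · rw [if_pos h4]
            obtain ⟨_, z, rfl⟩ := h4
            simp only [hg]
            rw [if_neg]
            rw [smul_dotProduct, h2, smul_zero]
            simp
          · rw [if_neg h4]
        rw [NV_congr X i h3]
        simp [NV]
      · have hsp : ¬ Special X i u := fun hsp => h2 ((Dsq_eq_zero_iff X i v₀).1 h u hsp)
        rw [NV_dir X i u v₁ hv₁ (fun d => if d = 0 then 0 else f (d * (u ⬝ᵥ v).natAbs))
          (by simp) g (fun z => ?_)]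
        · have e3 := dir_card_iff X i u v₁ hv₁ hsp
            (fun d => if d = 0 then 0 else f (d * (u ⬝ᵥ v).natAbs))
          rw [e3, sub_self]
        · by_cases hz : z = 0
          · simp [hz, hg]
          · have h5 : (z • u) ⬝ᵥ v₀ ≠ 0 := by
              rw [smul_dotProduct, smul_eq_mul]
              exact mul_ne_zero hz h2
            simp only [hg]
            rw [if_pos h5, if_neg (by simpa using hz), smul_dotProduct, smul_eq_mul,
              Int.natAbs_mul]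
  unfold NV at hzero
  simp only [hg] at hzero
  rw [← sum_filter, ← sum_filter] at hzero
  linarith

end

end Pool.Agent.Helper49.Petrie.D
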