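import Pool.Agent.Helper49.Petrie.Rows

/-!
# Row E: rank two
-/

namespace Pool.Agent.Helper49.Petrie.E

open Finset Pool.Agent.Helper49.Petrie

theorem Dsq_eq {k n : ℕ} (X : TorusAction k n) (i : Fin (n + 1)) (v : Fin k → ℤ) :
    Dsq X i v = ((n : ℤ) + 1 - X.p 1) * (X.a i ⬝ᵥ v) ^ 2 +
      (-2 * (∑ l, X.a l ⬝ᵥ v) - X.β ⬝ᵥ v) * (X.a i ⬝ᵥ v) +
      (∑ l, (X.a l ⬝ᵥ v) ^ 2 - v ⬝ᵥ (X.γ.mulVec v)) := by
  unfold Dsq
  rw [X.pont]
  have h : ∑ l, ((X.a l - X.a i) ⬝ᵥ v) ^ 2 = ∑ l, (X.a l ⬝ᵥ v) ^ 2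
      - 2 * (∑ l, X.a l ⬝ᵥ v) * (X.a i ⬝ᵥ v) + ((n : ℤ) + 1) * (X.a i ⬝ᵥ v) ^ 2 := by
    have : ∀ l, ((X.a l - X.a i) ⬝ᵥ v) ^ 2 = (X.a l ⬝ᵥ v) ^ 2
        - (X.a l ⬝ᵥ v) * (2 * (X.a i ⬝ᵥ v)) + (X.a i ⬝ᵥ v) ^ 2 := by
      intro l
      rw [sub_dotProduct]
      ring
    rw [sum_congr rfl fun l _ => this l, sum_add_distrib, sum_sub_distrib, ← sum_mul]
    simp only [sum_const, card_univ, Fintype.card_fin, nsmul_eq_mul]
    push_cast
    ring
  rw [h]
  ring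

theorem Dsq_sub {k n : ℕ} (X : TorusAction k n) (i l : Fin (n + 1)) (v : Fin k → ℤ) :
    Dsq X i v - Dsq X l v = ((X.a i - X.a l) ⬝ᵥ v) *
      (((n : ℤ) + 1 - X.p 1) * ((X.a i - X.a l) ⬝ᵥ v) +
        ((2 * ((n : ℤ) + 1 - X.p 1)) • X.a l - (2 : ℤ) • (∑ m, X.a m) - X.β) ⬝ᵥ v) := by
  rw [Dsq_eq, Dsq_eq]
  simp only [sub_dotProduct, smul_dotProduct, sum_dotProduct, smul_eq_mul]
  ring

/-- the perpendicular vector -/
def perp (y : Fin 2 → ℤ) : Fin 2 → ℤ := ![-y 1, y 0]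

theorem dot2 (x y : Fin 2 → ℤ) : x ⬝ᵥ y = x 0 * y 0 + x 1 * y 1 := by
  simp [dotProduct, Fin.sum_univ_two]

theorem perp_dot (x y : Fin 2 → ℤ) : x ⬝ᵥ perp y = x 1 * y 0 - x 0 * y 1 := by
  rw [dot2]
  simp [perp]
  ring

/-- `N_i(v, f)` -/
def NN {k n : ℕ} (X : TorusAction k n) (i : Fin (n + 1)) (v : Fin k → ℤ) (f : ℕ → ℤ) : ℤ :=
  ∑ l ∈ univ.filter (fun l => l ≠ i), f ((X.a l - X.a i) ⬝ᵥ v).natAbs
    - ∑ j, f (X.w i j ⬝ᵥ v).natAbs

theorem filter_ne_zero_sub {k n : ℕ} (X : TorusAction k n) (i : Fin (n + 1))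
    (v₀ v : Fin k → ℤ) (h : Dsq X i v₀ = 0) (f : ℕ → ℤ) :
    NN X i v f =
      ∑ l ∈ univ.filter (fun l => l ≠ i ∧ (X.a l - X.a i) ⬝ᵥ v₀ = 0),
          f ((X.a l - X.a i) ⬝ᵥ v).natAbs
        - ∑ j ∈ univ.filter (fun j => X.w i j ⬝ᵥ v₀ = 0), f (X.w i j ⬝ᵥ v).natAbs := by
  unfold NN
  have h1 := sum_eq_of_Dsq_zero X i v₀ h v f
  have h2 : ∑ l ∈ univ.filter (fun l => l ≠ i), f ((X.a l - X.a i) ⬝ᵥ v).natAbs =
      ∑ l ∈ univ.filter (fun l => l ≠ i ∧ (X.a l - X.a i) ⬝ᵥ v₀ = 0),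
          f ((X.a l - X.a i) ⬝ᵥ v).natAbs +
      ∑ l ∈ univ.filter (fun l => (X.a l - X.a i) ⬝ᵥ v₀ ≠ 0),
        f ((X.a l - X.a i) ⬝ᵥ v).natAbs := by
    rw [← sum_filter_add_sum_filter_not (univ.filter (fun l => l ≠ i))
      (fun l => (X.a l - X.a i) ⬝ᵥ v₀ = 0), filter_filter, filter_filter]
    congr 1
    apply sum_congr _ fun _ _ => rfl
    ext l
    simp only [mem_filter, mem_univ, true_and]
    constructor
    · exact fun h => h.2
    · intro h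
      refine ⟨?_, h⟩
      rintro rfl
      simp at h
  have h3 : ∑ j, f (X.w i j ⬝ᵥ v).natAbs =
      ∑ j ∈ univ.filter (fun j => X.w i j ⬝ᵥ v₀ = 0), f (X.w i j ⬝ᵥ v).natAbs +
      ∑ j ∈ univ.filter (fun j => X.w i j ⬝ᵥ v₀ ≠ 0), f (X.w i j ⬝ᵥ v).natAbs := by
    rw [← sum_filter_add_sum_filter_not univ (fun j => X.w i j ⬝ᵥ v₀ = 0)]
  rw [h2, h3, h1]
  ring

/-- sums over families with the same counts -/
theorem sum_eq_of_counts {ι : Type} [Fintype ι] (s t : ι → ℕ)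
    (h : ∀ d : ℕ, #{j | s j = d} = #{j | t j = d}) (f : ℕ → ℤ) :
    ∑ j, f (s j) = ∑ j, f (t j) := by
  classical
  obtain ⟨B, hB⟩ : ∃ B : ℕ, ∀ j, s j < B ∧ t j < B := by
    refine ⟨∑ j, s j + ∑ j, t j + 1, fun j => ⟨?_, ?_⟩⟩
    · have := single_le_sum (f := s) (fun i _ => Nat.zero_le _) (mem_univ j)
      omega
    · have := single_le_sum (f := t) (fun i _ => Nat.zero_le _) (mem_univ j)
      omega
  have key : ∀ u : ι → ℕ, (∀ j, u j < B) →
      ∑ j, f (u j) = ∑ d ∈ range B, (#{j | u j = d} : ℤ) * f d := by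
    intro u hu
    rw [← sum_fiberwise_of_maps_to (s := univ) (t := range B) (g := u)
      (fun j _ => mem_range.2 (hu j))]
    apply sum_congr rfl
    intro d _
    rw [sum_congr rfl (fun j hj => by rw [(mem_filter.1 hj).2] : ∀ j ∈ univ.filter
      (fun j => u j = d), f (u j) = f d)]
    simp
  rw [key s fun j => (hB j).1, key t fun j => (hB j).2]
  exact sum_congr rfl fun d _ => by rw [h d]

theorem NN_conn {k n : ℕ} (X : TorusAction k n) (i l : Fin (n + 1)) (v : Fin k → ℤ)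
    (h : X.a i ⬝ᵥ v = X.a l ⬝ᵥ v) (f : ℕ → ℤ) : NN X i v f = NN X l v f := by
  unfold NN
  have h1 : ∑ j, f (X.w i j ⬝ᵥ v).natAbs = ∑ j, f (X.w l j ⬝ᵥ v).natAbs :=
    sum_eq_of_counts _ _ ((X.circle v).conn i l h) f
  have h2 : ∀ m : Fin (n + 1), ∑ q ∈ univ.filter (fun q => q ≠ m),
      f ((X.a q - X.a m) ⬝ᵥ v).natAbs = ∑ q, f ((X.a q - X.a m) ⬝ᵥ v).natAbs - f 0 := by
    intro m
    rw [filter_ne', ← sum_erase_add univ _ (mem_univ m)]
    simp
  rw [h1, h2, h2]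
  simp only [sub_dotProduct, h]

/-- scaling for parallel vectors -/
theorem natAbs_scale {x y v v' : Fin 2 → ℤ} (hx : x ⬝ᵥ perp y = 0)
    (h1 : y ⬝ᵥ v ≠ 0) (h2 : y ⬝ᵥ v' ≠ 0) :
    ((x ⬝ᵥ v).natAbs : ℚ) / (y ⬝ᵥ v).natAbs = ((x ⬝ᵥ v').natAbs : ℚ) / (y ⬝ᵥ v').natAbs := by
  have key : (x ⬝ᵥ v) * (y ⬝ᵥ v') = (x ⬝ᵥ v') * (y ⬝ᵥ v) := by
    rw [perp_dot] at hx
    simp only [dot2]
    linear_combination (v 1 * v' 0 - v 0 * v' 1) * hx
  have h1' : ((y ⬝ᵥ v).natAbs : ℚ) ≠ 0 := by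
    exact_mod_cast Int.natAbs_ne_zero.2 h1
  have h2' : ((y ⬝ᵥ v').natAbs : ℚ) ≠ 0 := by
    exact_mod_cast Int.natAbs_ne_zero.2 h2
  rw [div_eq_div_iff h1' h2']
  have := congrArg Int.natAbs key
  rw [Int.natAbs_mul, Int.natAbs_mul] at this
  exact_mod_cast this

section
variable {n : ℕ} (X : TorusAction 2 n) (i₀ : Fin (n + 1))

/-- the vectors `y_i` -/
def yy (i : Fin (n + 1)) : Fin 2 → ℤ := X.a i - X.a i₀

theorem NN_scale (i : Fin (n + 1))
    (h0 : Dsq X i (perp (yy X i₀ i)) = 0) (v v' : Fin 2 → ℤ)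
    (h1 : yy X i₀ i ⬝ᵥ v ≠ 0) (h2 : yy X i₀ i ⬝ᵥ v' ≠ 0) (F : ℚ → ℤ) :
    NN X i v (fun d => F ((d : ℚ) / (yy X i₀ i ⬝ᵥ v).natAbs)) =
      NN X i v' (fun d => F ((d : ℚ) / (yy X i₀ i ⬝ᵥ v').natAbs)) := by
  rw [filter_ne_zero_sub X i _ v h0, filter_ne_zero_sub X i _ v' h0]
  congr 1
  · apply sum_congr rfl
    intro l hl
    rw [mem_filter] at hl
    rw [natAbs_scale hl.2.2 h1 h2]
  · apply sum_congr rfl
    intro j hj
    rw [mem_filter] at hj
    rw [natAbs_scale hj.2 h1 h2]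

theorem NN_pair (i l : Fin (n + 1))
    (hdet : yy X i₀ i ⬝ᵥ perp (yy X i₀ l) ≠ 0)
    (h0 : Dsq X i (perp (yy X i₀ i)) = 0) (h0' : Dsq X l (perp (yy X i₀ l)) = 0)
    (v v' : Fin 2 → ℤ)
    (h1 : yy X i₀ i ⬝ᵥ v ≠ 0) (h2 : yy X i₀ l ⬝ᵥ v' ≠ 0) (F : ℚ → ℤ) :
    NN X i v (fun d => F ((d : ℚ) / (yy X i₀ i ⬝ᵥ v).natAbs)) =
      NN X l v' (fun d => F ((d : ℚ) / (yy X i₀ l ⬝ᵥ v').natAbs)) := by
  set u := perp (yy X i₀ i - yy X i₀ l) with hu
  have e1 : yy X i₀ i ⬝ᵥ u = - (yy X i₀ i ⬝ᵥ perp (yy X i₀ l)) := by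
    rw [hu, perp_dot, perp_dot]
    simp only [Pi.sub_apply]
    ring
  have e2 : yy X i₀ l ⬝ᵥ u = - (yy X i₀ i ⬝ᵥ perp (yy X i₀ l)) := by
    rw [hu, perp_dot, perp_dot]
    simp only [Pi.sub_apply]
    ring
  have n1 : yy X i₀ i ⬝ᵥ u ≠ 0 := by rw [e1]; exact neg_ne_zero.2 hdet
  have n2 : yy X i₀ l ⬝ᵥ u ≠ 0 := by rw [e2]; exact neg_ne_zero.2 hdet
  rw [NN_scale X i₀ i h0 v u h1 n1 F, NN_scale X i₀ l h0' v' u h2 n2 F, e1, e2]
  apply NN_conn
  have : yy X i₀ i ⬝ᵥ u = yy X i₀ l ⬝ᵥ u := by rw [e1, e2]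
  unfold yy at this
  rw [sub_dotProduct, sub_dotProduct] at this
  linarith

/-- the form `D_i` for `D_{i₀} = 0` -/
theorem Dsq_form (h : ∀ v, Dsq X i₀ v = 0) : ∃ b : Fin 2 → ℤ, ∀ i v,
    Dsq X i v = (yy X i₀ i ⬝ᵥ v) * (((n : ℤ) + 1 - X.p 1) * (yy X i₀ i ⬝ᵥ v) + b ⬝ᵥ v) := by
  refine ⟨(2 * ((n : ℤ) + 1 - X.p 1)) • X.a i₀ - (2 : ℤ) • (∑ m, X.a m) - X.β, fun i v => ?_⟩
  have := Dsq_sub X i i₀ v
  rw [h v, sub_zero] at this
  exact this

theorem b_perp {b : Fin 2 → ℤ} (hb : ∀ i v,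
    Dsq X i v = (yy X i₀ i ⬝ᵥ v) * (((n : ℤ) + 1 - X.p 1) * (yy X i₀ i ⬝ᵥ v) + b ⬝ᵥ v))
    (i : Fin (n + 1)) (hy : yy X i₀ i ≠ 0) : b ⬝ᵥ perp (yy X i₀ i) = 0 := by
  set y := yy X i₀ i with hyd
  set q := y ⬝ᵥ y with hq
  have hq0 : 0 < q := by
    rw [hq, dot2]
    rcases eq_or_ne (y 0) 0 with h0 | h0
    · have h1 : y 1 ≠ 0 := by
        intro h1
        apply hy
        ext j
        fin_cases j
        · exact h0
        · exact h1
      have := mul_self_pos.2 h1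
      rw [h0]
      simpa using this
    · have h2 := mul_self_pos.2 h0
      have h3 := mul_self_nonneg (y 1)
      linarith
  have hpp : y ⬝ᵥ perp y = 0 := by
    rw [perp_dot]
    ring
  have key : ∀ s : ℤ, 0 ≤ ((n : ℤ) + 1 - X.p 1) * q + b ⬝ᵥ y + s * (b ⬝ᵥ perp y) := by
    intro s
    have h1 := Dsq_nonneg X i (s • perp y + y)
    rw [hb i, ← hyd] at h1
    have h2 : y ⬝ᵥ (s • perp y + y) = q := by
      rw [dotProduct_add, dotProduct_smul, hpp]
      simp [hq]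
    have h3 : b ⬝ᵥ (s • perp y + y) = s * (b ⬝ᵥ perp y) + b ⬝ᵥ y := by
      rw [dotProduct_add, dotProduct_smul]
      simp
    rw [h2, h3] at h1
    have h4 := nonneg_of_mul_nonneg_right h1 hq0
    linarith
  by_contra hne
  set B := b ⬝ᵥ perp y
  set C := ((n : ℤ) + 1 - X.p 1) * q + b ⬝ᵥ y
  have h5 := key (-(|C| + 1) * B)
  have h6 : 1 ≤ B * B := by
    have := mul_self_pos.2 hne
    omega
  have h7 : C ≤ |C| := le_abs_self C
  have h8 : 0 ≤ |C| := abs_nonneg C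
  nlinarith [h5, h6, h7, h8]

theorem exists_indep (i₀ : Fin (n + 1)) : ∃ i l, yy X i₀ i ⬝ᵥ perp (yy X i₀ l) ≠ 0 := by
  by_contra hcon
  push Not at hcon
  have h1 : ∃ l, yy X i₀ l ≠ 0 := by
    by_contra h1
    push Not at h1
    have := X.eff ![1, 0] (fun i l => by
      have e1 := h1 i
      have e2 := h1 l
      unfold yy at e1 e2
      rw [sub_eq_zero.1 e1, sub_eq_zero.1 e2])
    have := congrFun this 0
    simp at this
  obtain ⟨l, hl⟩ := h1
  have h2 := X.eff (perp (yy X i₀ l)) (fun i m => by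
    have e1 := hcon i l
    have e2 := hcon m l
    unfold yy at e1 e2 ⊢
    rw [sub_dotProduct] at e1 e2
    linarith)
  apply hl
  ext j
  fin_cases j
  · have := congrFun h2 1
    simpa [perp] using this
  · have := congrFun h2 0
    simpa [perp] using this

theorem Dsq_form' (h : ∀ v, Dsq X i₀ v = 0) : ∀ i v,
    Dsq X i v = ((n : ℤ) + 1 - X.p 1) * (yy X i₀ i ⬝ᵥ v) ^ 2 := by
  obtain ⟨b, hb⟩ := Dsq_form X i₀ h
  obtain ⟨i, l, hil⟩ := exists_indep X i₀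
  have hyi : yy X i₀ i ≠ 0 := by
    intro h
    rw [h] at hil
    simp at hil
  have hyl : yy X i₀ l ≠ 0 := by
    intro h
    apply hil
    rw [perp_dot, h]
    simp
  have e1 := b_perp X i₀ hb i hyi
  have e2 := b_perp X i₀ hb l hyl
  rw [perp_dot] at e1 e2 hil
  have hb0 : b 0 = 0 := by
    have : b 0 * (yy X i₀ i 1 * yy X i₀ l 0 - yy X i₀ i 0 * yy X i₀ l 1) = 0 := by
      linear_combination (yy X i₀ i 0) * e2 - (yy X i₀ l 0) * e1
    exact (mul_eq_zero.1 this).resolve_right hil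
  have hb1 : b 1 = 0 := by
    have : b 1 * (yy X i₀ i 1 * yy X i₀ l 0 - yy X i₀ i 0 * yy X i₀ l 1) = 0 := by
      linear_combination (yy X i₀ i 1) * e2 - (yy X i₀ l 1) * e1
    exact (mul_eq_zero.1 this).resolve_right hil
  intro m v
  rw [hb m v, dot2 b v, hb0, hb1]
  ring

theorem perp_anti (x y : Fin 2 → ℤ) : x ⬝ᵥ perp y = - (y ⬝ᵥ perp x) := by
  rw [perp_dot, perp_dot]
  ring

theorem perp_trans {x y z : Fin 2 → ℤ} (hy : y ≠ 0) (h1 : x ⬝ᵥ perp y = 0)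
    (h2 : z ⬝ᵥ perp y = 0) : x ⬝ᵥ perp z = 0 := by
  rw [perp_dot] at *
  rcases eq_or_ne (y 0) 0 with h0 | h0
  · have h3 : y 1 ≠ 0 := by
      intro h3
      apply hy
      ext j
      fin_cases j
      · exact h0
      · exact h3
    have : y 1 * (x 1 * z 0 - x 0 * z 1) = 0 := by
      linear_combination (z 1) * h1 - (x 1) * h2
    exact (mul_eq_zero.1 this).resolve_left h3
  · have : y 0 * (x 1 * z 0 - x 0 * z 1) = 0 := by
      linear_combination (z 0) * h1 - (x 0) * h2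
    exact (mul_eq_zero.1 this).resolve_left h0

theorem NN_univ (h0 : ∀ m, Dsq X m (perp (yy X i₀ m)) = 0) (i l : Fin (n + 1))
    (v v' : Fin 2 → ℤ) (h1 : yy X i₀ i ⬝ᵥ v ≠ 0) (h2 : yy X i₀ l ⬝ᵥ v' ≠ 0) (F : ℚ → ℤ) :
    NN X i v (fun d => F ((d : ℚ) / (yy X i₀ i ⬝ᵥ v).natAbs)) =
      NN X l v' (fun d => F ((d : ℚ) / (yy X i₀ l ⬝ᵥ v').natAbs)) := by
  have hyi : yy X i₀ i ≠ 0 := by
    intro h
    rw [h] at h1
    simp at h1
  have hyl : yy X i₀ l ≠ 0 := by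
    intro h
    rw [h] at h2
    simp at h2
  by_cases hil : yy X i₀ i ⬝ᵥ perp (yy X i₀ l) = 0
  · have hm : ∃ m, yy X i₀ m ⬝ᵥ perp (yy X i₀ i) ≠ 0 := by
      by_contra hcon
      push Not at hcon
      obtain ⟨a, b, hab⟩ := exists_indep X i₀
      exact hab (perp_trans hyi (hcon a) (hcon b))
    obtain ⟨m, hm⟩ := hm
    have hm' : yy X i₀ i ⬝ᵥ perp (yy X i₀ m) ≠ 0 := by
      rw [perp_anti]
      exact neg_ne_zero.2 hm
    have hml : yy X i₀ m ⬝ᵥ perp (yy X i₀ l) ≠ 0 := by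
      intro h3
      exact hm (perp_trans hyl h3 hil)
    rw [NN_pair X i₀ i m hm' (h0 i) (h0 m) v (perp (yy X i₀ i)) h1 hm F]
    exact NN_pair X i₀ m l hml (h0 m) (h0 l) _ v' hm h2 F
  · exact NN_pair X i₀ i l hil (h0 i) (h0 l) v v' h1 h2 F

end

section
variable {k n : ℕ} (X : TorusAction k n)

theorem NN_ind (i : Fin (n + 1)) (v : Fin k → ℤ) (m : ℕ) :
    NN X i v (fun d => if m ∣ d then 1 else 0) =
      (cntA (fun l => X.a l ⬝ᵥ v) i m : ℤ) - cntW (fun j => X.w i j ⬝ᵥ v) m := by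
  unfold NN cntA cntW
  congr 1
  · rw [card_filter, sum_filter]
    push_cast
    apply sum_congr rfl
    intro l _
    rw [sub_dotProduct]
    by_cases h1 : l ≠ i <;> simp [h1, Int.natCast_dvd]
  · rw [card_filter]
    push_cast
    apply sum_congr rfl
    intro j _
    simp [Int.natCast_dvd]

theorem NN_ne_zero_exists (i : Fin (n + 1)) (v : Fin k → ℤ) (f : ℕ → ℤ)
    (h : NN X i v f ≠ 0) :
    (∃ l, l ≠ i ∧ f ((X.a l - X.a i) ⬝ᵥ v).natAbs ≠ 0) ∨ ∃ j, f (X.w i j ⬝ᵥ v).natAbs ≠ 0 := by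
  by_contra hcon
  push Not at hcon
  apply h
  unfold NN
  rw [sum_eq_zero fun l hl => hcon.1 l (mem_filter.1 hl).2,
    sum_eq_zero fun j _ => hcon.2 j, sub_zero]

theorem NN_sq (i : Fin (n + 1)) (v : Fin k → ℤ) :
    NN X i v (fun d => (d : ℤ) ^ 2) = Dsq X i v := by
  unfold NN Dsq
  congr 1
  · rw [filter_ne', ← sum_erase_add univ (fun l => ((X.a l - X.a i) ⬝ᵥ v) ^ 2) (mem_univ i)]
    simp
  · simp

/-- the gcd of the differences divides all weights -/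
theorem dvd_weight (v : Fin k → ℤ) (g : ℕ) (i : Fin (n + 1))
    (hg : ∀ l, (g : ℤ) ∣ X.a l ⬝ᵥ v - X.a i ⬝ᵥ v) (j : Fin n) : (g : ℤ) ∣ X.w i j ⬝ᵥ v := by
  rw [Int.natCast_dvd, Nat.dvd_iff_prime_pow_dvd_dvd]
  intro p e hp hpe
  rcases Nat.eq_zero_or_pos e with rfl | he
  · simp
  have hpp : IsPrimePow (p ^ e) := hp.isPrimePow.pow he.ne'
  have h1 := (X.circle v).smith i (p ^ e) (Or.inr hpp)
  have h2 : cntA (fun i => X.a i ⬝ᵥ v) i (p ^ e) = n := by
    unfold cntA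
    have : (univ.filter fun l => l ≠ i ∧ ((p ^ e : ℕ) : ℤ) ∣ X.a l ⬝ᵥ v - X.a i ⬝ᵥ v) =
        univ.erase i := by
      ext l
      simp only [mem_filter, mem_univ, true_and, mem_erase, and_true, and_iff_left_iff_imp]
      intro _
      exact dvd_trans (Int.natCast_dvd_natCast.2 hpe) (hg l)
    rw [this, card_erase_of_mem (mem_univ i)]
    simp
  rw [h2] at h1
  unfold cntW at h1
  have h3 : (univ.filter fun j => ((p ^ e : ℕ) : ℤ) ∣ X.w i j ⬝ᵥ v) = univ := by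
    apply eq_univ_of_card
    rw [h1, Fintype.card_fin]
  have h4 : j ∈ (univ.filter fun j => ((p ^ e : ℕ) : ℤ) ∣ X.w i j ⬝ᵥ v) := by
    rw [h3]; exact mem_univ j
  exact Int.natCast_dvd.1 (mem_filter.1 h4).2

/-- weights are bounded by the differences -/
theorem weight_le (v : Fin k → ℤ) (i : Fin (n + 1)) (B : ℕ)
    (hB : ∀ l, (X.a l ⬝ᵥ v - X.a i ⬝ᵥ v).natAbs ≤ B) (j : Fin n) :
    (X.w i j ⬝ᵥ v).natAbs ≤ B := by
  by_contra hcon
  push Not at hcon
  set d := (X.w i j ⬝ᵥ v).natAbs with hd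
  have h1 := (X.circle v).index_le i d
  have h0 := (X.circle v).smith i 0 (Or.inl rfl)
  have h2 : cntA (fun i => X.a i ⬝ᵥ v) i d = cntA (fun i => X.a i ⬝ᵥ v) i 0 := by
    unfold cntA
    congr 1
    ext l
    simp only [mem_filter, mem_univ, true_and, and_congr_right_iff]
    intro _
    constructor
    · intro h3
      have h4 := Int.natCast_dvd.1 h3
      have h5 := Nat.eq_zero_of_dvd_of_lt h4 (lt_of_le_of_lt (hB l) hcon)
      rw [Int.natAbs_eq_zero.1 h5]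
      exact dvd_zero _
    · intro h3
      have : X.a l ⬝ᵥ v - X.a i ⬝ᵥ v = 0 := by simpa using h3
      rw [this]
      exact dvd_zero _
  rw [h2, ← h0] at h1
  have h3 : cntW (fun j => X.w i j ⬝ᵥ v) 0 < cntW (fun j => X.w i j ⬝ᵥ v) d := by
    unfold cntW
    apply card_lt_card
    rw [ssubset_iff_of_subset]
    · refine ⟨j, ?_, ?_⟩
      · rw [mem_filter]
        exact ⟨mem_univ j, Int.natCast_dvd.2 (dvd_refl _)⟩
      · rw [mem_filter]
        rintro ⟨_, h4⟩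
        have : X.w i j ⬝ᵥ v = 0 := by simpa using h4
        rw [this] at hd
        simp at hd
        omega
    · intro j' hj'
      rw [mem_filter] at hj' ⊢
      refine ⟨mem_univ _, ?_⟩
      have : X.w i j' ⬝ᵥ v = 0 := by simpa using hj'.2
      simp only [this]
      exact dvd_zero _
  omega

/-- expansion of `N_i` into point masses -/
theorem NN_expand (i : Fin (n + 1)) (v : Fin k → ℤ) (B : ℕ)
    (hB : ∀ l, (X.a l ⬝ᵥ v - X.a i ⬝ᵥ v).natAbs ≤ B) (f : ℕ → ℤ) :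
    NN X i v f = ∑ d ∈ range (B + 1), f d * NN X i v (fun e => if e = d then 1 else 0) := by
  unfold NN
  simp only [mul_sub, sum_sub_distrib, mul_sum]
  congr 1
  · rw [sum_comm]
    apply sum_congr rfl
    intro l _
    rw [sum_eq_single ((X.a l - X.a i) ⬝ᵥ v).natAbs]
    · simp
    · intro d _ hd
      rw [if_neg hd.symm, mul_zero]
    · intro h1
      exfalso
      apply h1
      rw [mem_range, sub_dotProduct]
      have := hB l
      omega
  · rw [sum_comm]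
    apply sum_congr rfl
    intro j _
    rw [sum_eq_single (X.w i j ⬝ᵥ v).natAbs]
    · simp
    · intro d _ hd
      simp [hd.symm]
    · intro h1
      exfalso
      apply h1
      rw [mem_range]
      have := weight_le X v i B hB j
      omega

end

section
variable {n : ℕ} (X : TorusAction 2 n) (i₀ : Fin (n + 1))

theorem contra (h : ∀ v, Dsq X i₀ v = 0) (hδ : 0 < (n : ℤ) + 1 - X.p 1) : False := by
  have hform := Dsq_form' X i₀ h
  have h0 : ∀ m, Dsq X m (perp (yy X i₀ m)) = 0 := by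
    intro m
    rw [hform, perp_dot]
    ring
  obtain ⟨a, b, hab⟩ := exists_indep X i₀
  set v := perp (yy X i₀ b) with hv
  set x : Fin (n + 1) → ℤ := fun m => yy X i₀ m ⬝ᵥ v with hx
  have hx0 : x i₀ = 0 := by simp [hx, yy]
  obtain ⟨i, -, hi⟩ := exists_max_image univ (fun m => (x m).natAbs) univ_nonempty
  set R := (x i).natAbs with hR
  have hRpos : 0 < R := by
    have h1 := hi a (mem_univ a)
    have h2 : 0 < (x a).natAbs := Int.natAbs_pos.2 hab
    omega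
  have hxi : x i ≠ 0 := by
    intro h1
    rw [hR, h1] at hRpos
    simp at hRpos
  have hdiff : ∀ l m, X.a l ⬝ᵥ v - X.a m ⬝ᵥ v = x l - x m := by
    intro l m
    simp only [hx, yy, sub_dotProduct]
    ring
  have hB : ∀ l, (X.a l ⬝ᵥ v - X.a i ⬝ᵥ v).natAbs ≤ 2 * R := by
    intro l
    rw [hdiff]
    have h1 := hi l (mem_univ l)
    have h2 := Int.natAbs_sub_le (x l) (x i)
    omega
  -- the gcd
  set g : ℕ := univ.gcd (fun m => (x m).natAbs) with hg
  have hgd : ∀ m, (g : ℤ) ∣ x m := fun m => Int.natCast_dvd.2 (gcd_dvd (mem_univ m))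
  have hg0 : g ≠ 0 := by
    intro h1
    have h2 := hgd i
    rw [h1] at h2
    exact hxi (by simpa using h2)
  have hgw : ∀ m j, (g : ℤ) ∣ X.w m j ⬝ᵥ v := by
    intro m j
    apply dvd_weight X v g m _ j
    intro l
    rw [hdiff]
    exact dvd_sub (hgd l) (hgd m)
  -- support
  have hsupp : ∀ d : ℕ, NN X i v (fun e => if e = d then 1 else 0) ≠ 0 → R ∣ d := by
    intro d hd
    have h1 : ∀ m, R * g ∣ d * (x m).natAbs := by
      intro m
      rcases eq_or_ne (x m) 0 with hm | hm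
      · rw [hm]
        simp
      have hRq : (R : ℚ) ≠ 0 := by exact_mod_cast hRpos.ne'
      have hmq : ((x m).natAbs : ℚ) ≠ 0 := by
        exact_mod_cast Int.natAbs_ne_zero.2 hm
      have h2 := NN_univ X i₀ h0 i m v v hxi hm (fun q => if q = (d : ℚ) / R then 1 else 0)
      have h3 : (fun e : ℕ => if ((e : ℚ) / (yy X i₀ i ⬝ᵥ v).natAbs) = (d : ℚ) / R
          then (1 : ℤ) else 0) = fun e => if e = d then 1 else 0 := by
        funext e
        have : ((e : ℚ) / (yy X i₀ i ⬝ᵥ v).natAbs) = (d : ℚ) / R ↔ e = d := by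
          change ((e : ℚ) / R) = (d : ℚ) / R ↔ e = d
          rw [div_left_inj' hRq]
          exact Nat.cast_inj
        simp only [this]
      rw [h3] at h2
      rw [h2] at hd
      have h4 : ∀ e : ℕ, (if ((e : ℚ) / (yy X i₀ m ⬝ᵥ v).natAbs) = (d : ℚ) / R
          then (1 : ℤ) else 0) ≠ 0 → R * e = d * (x m).natAbs := by
        intro e he
        have h5 : ((e : ℚ) / (x m).natAbs) = (d : ℚ) / R := by
          by_contra h5
          apply he
          exact if_neg h5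
        rw [div_eq_div_iff hmq hRq] at h5
        have h6 : (e : ℚ) * R = d * (x m).natAbs := h5
        have h7 : e * R = d * (x m).natAbs := by exact_mod_cast h6
        rw [mul_comm, h7]
      rcases NN_ne_zero_exists X m v _ hd with ⟨l, _, hl⟩ | ⟨j, hj⟩
      · rw [← h4 _ hl]
        apply mul_dvd_mul_left
        rw [sub_dotProduct, hdiff]
        exact Int.natCast_dvd.1 (dvd_sub (hgd l) (hgd m))
      · rw [← h4 _ hj]
        apply mul_dvd_mul_left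
        exact Int.natCast_dvd.1 (hgw m j)
    have h2 : R * g ∣ univ.gcd (fun m => d * (x m).natAbs) := dvd_gcd fun m _ => h1 m
    rw [Finset.gcd_mul_left, ← hg] at h2
    have h3 : R * g ∣ d * g := by simpa using h2
    exact Nat.dvd_of_mul_dvd_mul_right (Nat.pos_of_ne_zero hg0) h3
  have hzero : NN X i v (fun e => if e = 0 then 1 else 0) = 0 := by
    have h1 := NN_ind X i v 0
    rw [(X.circle v).smith i 0 (Or.inl rfl), sub_self] at h1
    have h2 : (fun e : ℕ => if e = 0 then (1 : ℤ) else 0) = fun e => if 0 ∣ e then 1 else 0 := by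
      funext e
      simp [zero_dvd_iff]
    rw [h2]
    exact h1
  have hexp : ∀ f : ℕ → ℤ, NN X i v f = f R * NN X i v (fun e => if e = R then 1 else 0) +
      f (2 * R) * NN X i v (fun e => if e = 2 * R then 1 else 0) := by
    intro f
    rw [NN_expand X i v (2 * R) hB f]
    rw [← sum_pair (f := fun d => f d * NN X i v (fun e => if e = d then 1 else 0))
      (by omega : R ≠ 2 * R)]
    symm
    apply sum_subset
    · intro d hd
      rw [mem_insert, mem_singleton] at hd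
      rw [mem_range]
      omega
    · intro d hd hd'
      rw [mem_range] at hd
      rw [mem_insert, mem_singleton] at hd'
      rcases Nat.eq_zero_or_pos d with h1 | h1
      · rw [h1, hzero, mul_zero]
      · have : NN X i v (fun e => if e = d then 1 else 0) = 0 := by
          by_contra hne
          obtain ⟨c, hc⟩ := hsupp d hne
          apply hd'
          rcases Nat.lt_or_ge c 3 with h2 | h2
          · interval_cases c
            · omega
            · left; omega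
            · right; omega
          · have : R * 3 ≤ R * c := Nat.mul_le_mul_left _ h2
            omega
        rw [this, mul_zero]
  -- the prime power 2^(e+1)
  have hphi2 : NN X i v (fun e => if e = 2 * R then 1 else 0) = 0 := by
    obtain ⟨e, c, hc, hRe⟩ := Nat.exists_eq_two_pow_mul_odd hRpos.ne'
    have hpp : IsPrimePow (2 ^ (e + 1)) := Nat.prime_two.isPrimePow.pow (Nat.succ_ne_zero e)
    have h1 := NN_ind X i v (2 ^ (e + 1))
    rw [(X.circle v).smith i _ (Or.inr hpp), sub_self, hexp] at h1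
    have h2 : ¬ 2 ^ (e + 1) ∣ R := by
      rw [hRe, pow_succ]
      intro h3
      have := Nat.dvd_of_mul_dvd_mul_left (pow_pos (by norm_num) e) h3
      exact (Nat.not_even_iff_odd.2 hc) (even_iff_two_dvd.2 this)
    have h3 : 2 ^ (e + 1) ∣ 2 * R := by
      rw [hRe, pow_succ]
      exact ⟨c, by ring⟩
    simpa [h2, h3] using h1
  have hphi1 : NN X i v (fun e => if e = R then 1 else 0) = 0 := by
    have h1 := hexp (fun _ => 1)
    rw [hphi2] at h1
    have h2 : NN X i v (fun _ => 1) = 0 := by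
      unfold NN
      rw [filter_ne']
      simp
    rw [h2] at h1
    linarith
  have hfin := hexp (fun d => (d : ℤ) ^ 2)
  rw [hphi1, hphi2, NN_sq, hform] at hfin
  have h1 : 0 < ((n : ℤ) + 1 - X.p 1) * (yy X i₀ i ⬝ᵥ v) ^ 2 := by
    apply mul_pos hδ
    exact sq_pos_of_ne_zero hxi
  linarith

theorem torus_two' (h : ∀ v, Dsq X i₀ v = 0) : ∀ i v, Dsq X i v = 0 := by
  have hform := Dsq_form' X i₀ h
  rcases lt_trichotomy ((n : ℤ) + 1 - X.p 1) 0 with hδ | hδ | hδ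
  · exfalso
    obtain ⟨a, b, hab⟩ := exists_indep X i₀
    have h1 := Dsq_nonneg X a (perp (yy X i₀ b))
    rw [hform] at h1
    have h2 : 0 < (yy X i₀ a ⬝ᵥ perp (yy X i₀ b)) ^ 2 := by positivity
    nlinarith
  · intro i v
    rw [hform, hδ, zero_mul]
  · exact (contra X i₀ h hδ).elim

end

end Pool.Agent.Helper49.Petrie.E
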