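import Pool.Agent.Helper49.Petrie.DirSum
import Pool.Agent.Helper57.Petrie.F
import Pool.Agent.Helper34.Petrie.Dirac
import Pool.Agent.Helper34.Petrie.Rich

/-!
# The proved rows under their short names
-/

namespace Pool.Agent.Helper49.Petrie

open Finset

theorem Dsq_nonneg {k n : ℕ} (X : TorusAction k n) (i : Fin (n + 1)) (v : Fin k → ℤ) :
    0 ≤ Dsq X i v := D.Dsq_nonneg X i v

theorem sum_eq_of_Dsq_eq_zero {k n : ℕ} (X : TorusAction k n) (i : Fin (n + 1))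
    (v : Fin k → ℤ) (h : Dsq X i v = 0) (f : ℕ → ℤ) :
    ∑ j, f (X.w i j ⬝ᵥ v).natAbs =
      ∑ l ∈ univ.filter (fun l => l ≠ i), f ((X.a l - X.a i) ⬝ᵥ v).natAbs :=
  D.sum_eq_of_Dsq_eq_zero X i v h f

theorem Dsq_eq_zero_iff {k n : ℕ} (X : TorusAction k n) (i : Fin (n + 1))
    (v : Fin k → ℤ) : Dsq X i v = 0 ↔ ∀ u, Special X i u → u ⬝ᵥ v = 0 :=
  D.Dsq_eq_zero_iff X i v

theorem sum_eq_of_Dsq_zero {k n : ℕ} (X : TorusAction k n) (i : Fin (n + 1))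
    (v₀ : Fin k → ℤ) (h : Dsq X i v₀ = 0) (v : Fin k → ℤ) (f : ℕ → ℤ) :
    ∑ j ∈ univ.filter (fun j => X.w i j ⬝ᵥ v₀ ≠ 0), f (X.w i j ⬝ᵥ v).natAbs =
      ∑ l ∈ univ.filter (fun l => (X.a l - X.a i) ⬝ᵥ v₀ ≠ 0),
        f ((X.a l - X.a i) ⬝ᵥ v).natAbs :=
  D.sum_eq_of_Dsq_zero X i v₀ h v f

theorem config_bound {k : ℕ} (hk : 2 ≤ k) (P : Finset (Fin k → ℚ)) (hne : P.Nonempty)
    (K : (Fin k → ℚ) → Submodule ℚ (Fin k → ℚ)) (S : (Fin k → ℚ) → Set (Fin k → ℚ))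
    (hK1 : ∀ p ∈ P, Module.finrank ℚ (K p) ≤ 1)
    (hSK : ∀ p ∈ P, ∀ v, v ∈ K p ↔ ∀ u ∈ S p, u ⬝ᵥ v = 0)
    (hrich : ∀ p ∈ P, ∀ u ∈ S p, ∃ T : Finset ℚ, T.card = 4 ∧ ∀ t ∈ T, p + t • u ∈ P)
    (hprop : ∀ p ∈ P, ∀ q ∈ P, ∀ v ∈ K p, (q - p) ⬝ᵥ v = 0 → v ∈ K q)
    (hspan : ∀ v : Fin k → ℚ, (∀ p ∈ P, ∀ q ∈ P, (q - p) ⬝ᵥ v = 0) → v = 0) :
    (k + 3).choose 3 ≤ P.card ∨ 2 * (k + 2).choose 3 ≤ P.card :=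
  Pool.Agent.Helper57.Petrie.config_bound hk P hne K S hK1 hSK hrich hprop hspan

theorem dirac_std (n : ℕ) (r : Fin (n / 2) → ℂ)
    (h : ∀ c : ℤ, Even (c + (n + 1)) → |c| < n + 1 → diracIndex n r c = 0)
    (s : ℕ) (hs : 2 * s ≤ n) :
    (∏ j, (1 + Polynomial.C (r j) * Polynomial.X)).coeff s = ((n + 1).choose s : ℂ) :=
  Pool.Agent.Helper34.Petrie.dirac_std n r h s hs

theorem special_rich {k n : ℕ} (X : TorusAction k n) (i : Fin (n + 1)) (u : Fin k → ℤ)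
    (h : Special X i u) :
    ∃ z₁ z₂ z₃ : ℤ, z₁ ≠ 0 ∧ z₂ ≠ 0 ∧ z₃ ≠ 0 ∧ z₁ ≠ z₂ ∧ z₁ ≠ z₃ ∧ z₂ ≠ z₃ ∧
      (∃ l, X.a l = X.a i + z₁ • u) ∧ (∃ l, X.a l = X.a i + z₂ • u) ∧
      (∃ l, X.a l = X.a i + z₃ • u) :=
  Pool.Agent.Helper34.Petrie.special_rich X i u h

end Pool.Agent.Helper49.Petrie
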